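import Pool.Agent.Helper454.Wh.Defs

set_option autoImplicit false

namespace Pool.Agent.Helper454.Wh

open Pool.Agent.Helper454.Kauf (Piece Word LocalMove FirstMove Isotopic IsKnot width circle)
open OPiece

noncomputable section

set_option linter.unusedSectionVars false
set_option linter.unreachableTactic false
set_option linter.unusedTactic false

instance (w : OWord) : Decidable (OClosed w) :=
  inferInstanceAs (Decidable ((below w 0 noD).map Prod.fst = some 0))

theorem below_append (u v : OWord) (n : ℕ) (d : ℕ → Bool) :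
    below (u ++ v) n d = (below u n d).bind fun s => below v s.1 s.2 := by
  induction u generalizing n d with
  | nil => simp [below]
  | cons p u ih =>
    simp only [List.cons_append, below]
    cases h : p.below n d with
    | none => simp
    | some s => simp [ih]

/-! ### identities for directions -/

theorem insD_left (i : ℕ) (b : Bool) (d : ℕ → Bool) : insD i b d i = b := by
  simp [insD]

theorem insD_right (i : ℕ) (b : Bool) (d : ℕ → Bool) : insD i b d (i + 1) = !b := by
  simp [insD]

theorem insD_lt {i k : ℕ} (b : Bool) (d : ℕ → Bool) (h : k < i) : insD i b d k = d k := by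
  simp [insD, h]

theorem insD_gt {i k : ℕ} (b : Bool) (d : ℕ → Bool) (h : i ≤ k) : insD i b d (k + 2) = d k := by
  simp only [insD]
  split_ifs <;> first | rfl | (exfalso; omega)

theorem delD_lt {i k : ℕ} (d : ℕ → Bool) (h : k < i) : delD i d k = d k := by
  simp [delD, h]

theorem delD_ge {i k : ℕ} (d : ℕ → Bool) (h : i ≤ k) : delD i d k = d (k + 2) := by
  simp only [delD]
  split_ifs <;> first | rfl | (exfalso; omega)

theorem swpD_left (i : ℕ) (d : ℕ → Bool) : swpD i d i = d (i + 1) := by
  simp [swpD]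

theorem swpD_right (i : ℕ) (d : ℕ → Bool) : swpD i d (i + 1) = d i := by
  simp [swpD]

theorem swpD_lt {i k : ℕ} (d : ℕ → Bool) (h : k < i) : swpD i d k = d k := by
  simp only [swpD]
  split_ifs <;> first | rfl | (exfalso; omega)

theorem swpD_gt {i k : ℕ} (d : ℕ → Bool) (h : i + 2 ≤ k) : swpD i d k = d k := by
  simp only [swpD]
  split_ifs <;> first | rfl | (exfalso; omega)

theorem swp_swp_far (d : ℕ → Bool) {i j : ℕ} (h : i + 2 ≤ j) :
    swpD j (swpD i d) = swpD i (swpD j d) := by
  funext k
  simp only [swpD]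
  split_ifs <;> first | rfl | (exfalso; omega)

theorem swp_swp (d : ℕ → Bool) (i : ℕ) : swpD i (swpD i d) = d := by
  funext k
  simp only [swpD]
  split_ifs <;> first | rfl | (exfalso; omega) | (congr 1; omega)

theorem swp_ins_right (d : ℕ → Bool) (b : Bool) {l k : ℕ} (h : l ≤ k) :
    swpD (k + 2) (insD l b d) = insD l b (swpD k d) := by
  funext q
  simp only [swpD, insD]
  split_ifs <;> first | rfl | (exfalso; omega) | (congr 1; omega)

theorem swp_ins_left (d : ℕ → Bool) (b : Bool) {l k : ℕ} (h : k + 2 ≤ l) :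
    swpD k (insD l b d) = insD l b (swpD k d) := by
  funext q
  simp only [swpD, insD]
  split_ifs <;> first | rfl | (exfalso; omega) | (congr 1; omega)

theorem ins_ins (d : ℕ → Bool) (b c : Bool) {i j : ℕ} (h : i ≤ j) :
    insD (j + 2) c (insD i b d) = insD i b (insD j c d) := by
  funext q
  simp only [insD]
  split_ifs <;> first | rfl | (exfalso; omega) | (congr 1; omega)

theorem del_swp_right (d : ℕ → Bool) {k j : ℕ} (h : k + 2 ≤ j) :
    delD j (swpD k d) = swpD k (delD j d) := by
  funext q
  simp only [swpD, delD]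
  split_ifs <;> first | rfl | (exfalso; omega) | (congr 1; omega)

theorem del_swp_left (d : ℕ → Bool) {k j : ℕ} (h : j ≤ k) :
    delD j (swpD (k + 2) d) = swpD k (delD j d) := by
  funext q
  simp only [swpD, delD]
  split_ifs <;> first | rfl | (exfalso; omega) | (congr 1; omega)

theorem del_ins_right (d : ℕ → Bool) (b : Bool) {l j : ℕ} (h : l ≤ j) :
    delD (j + 2) (insD l b d) = insD l b (delD j d) := by
  funext q
  simp only [insD, delD]
  split_ifs <;> first | rfl | (exfalso; omega) | (congr 1; omega)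

theorem del_ins_left (d : ℕ → Bool) (b : Bool) {l j : ℕ} (h : j ≤ l) :
    delD j (insD (l + 2) b d) = insD l b (delD j d) := by
  funext q
  simp only [insD, delD]
  split_ifs <;> first | rfl | (exfalso; omega) | (congr 1; omega)

theorem swp_ins_slide (d : ℕ → Bool) (b : Bool) (i : ℕ) :
    swpD (i + 1) (insD i b d) = swpD i (insD (i + 1) b d) := by
  funext q
  simp only [swpD, insD]
  split_ifs <;> first | rfl | (exfalso; omega) | (congr 1; omega)

theorem swp_ins_same (d : ℕ → Bool) (b : Bool) (i : ℕ) :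
    swpD i (insD i b d) = insD i (!b) d := by
  funext q
  simp only [swpD, insD]
  split_ifs <;> first | rfl | (exfalso; omega) | (congr 1; omega) | simp

theorem del_swp_slide (d : ℕ → Bool) (i : ℕ) :
    delD i (swpD (i + 1) d) = delD (i + 1) (swpD i d) := by
  funext q
  simp only [swpD, delD]
  split_ifs <;> first | rfl | (exfalso; omega) | (congr 1; omega)

theorem del_swp_same (d : ℕ → Bool) (i : ℕ) : delD i (swpD i d) = delD i d := by
  funext q
  simp only [swpD, delD]
  split_ifs <;> first | rfl | (exfalso; omega) | (congr 1; omega)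

theorem swp_braid (d : ℕ → Bool) (i : ℕ) :
    swpD i (swpD (i + 1) (swpD i d)) = swpD (i + 1) (swpD i (swpD (i + 1) d)) := by
  funext q
  simp only [swpD]
  split_ifs <;> first | rfl | (exfalso; omega) | (congr 1; omega)

theorem del_ins_zig1 (d : ℕ → Bool) (i : ℕ) : delD (i + 1) (insD i (d i) d) = d := by
  funext q
  simp only [insD, delD]
  split_ifs <;> first | rfl | (exfalso; omega) | (congr 1; omega)

theorem del_ins_zig2 (d : ℕ → Bool) (i : ℕ) : delD i (insD (i + 1) (!d i) d) = d := by
  funext q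
  simp only [insD, delD]
  split_ifs <;> first | rfl | (exfalso; omega) | (congr 1; omega) | (simp; congr 1; omega)

section
variable {R : Type} [CommRing R] {M : Type} [AddCommGroup M] [Module R M]

/-- extension by zero to all words -/
def extd (Λ : OWord → M) : OWord → M := fun w => if OClosed w then Λ w else 0

variable (R) in
/-- one piece as a linear operator -/
def stL (p : OPiece) : (OWord → M) →ₗ[R] (OWord → M) where
  toFun f := fun y => f (p :: y)
  map_add' _ _ := rfl
  map_smul' _ _ := rfl

def st (f : OWord → M) (p : OPiece) : OWord → M := fun y => f (p :: y)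

theorem st_apply (f : OWord → M) (p : OPiece) (y : OWord) : st f p y = f (p :: y) := rfl
theorem st_add (f g : OWord → M) (p : OPiece) : st (f + g) p = st f p + st g p := rfl
theorem st_smul (c : R) (f : OWord → M) (p : OPiece) : st (c • f) p = c • st f p := rfl
theorem st_neg (f : OWord → M) (p : OPiece) : st (-f) p = -st f p := rfl
theorem st_sub (f g : OWord → M) (p : OPiece) : st (f - g) p = st f p - st g p := rfl
theorem st_zero (p : OPiece) : st (0 : OWord → M) p = 0 := rfl

variable (R) in
/-- a word as a linear operator -/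
def apL (w : OWord) : (OWord → M) →ₗ[R] (OWord → M) where
  toFun f := fun y => f (w ++ y)
  map_add' _ _ := rfl
  map_smul' _ _ := rfl

def ap (f : OWord → M) (w : OWord) : OWord → M := fun y => f (w ++ y)

theorem ap_nil (f : OWord → M) : ap f [] = f := rfl
theorem ap_cons (f : OWord → M) (p : OPiece) (w : OWord) : ap f (p :: w) = ap (st f p) w := rfl

variable (R) in
/-- the functionals of tangles with `n` ends of directions `d` -/
def S (Λ : OWord → M) (n : ℕ) (d : ℕ → Bool) : Submodule R (OWord → M) :=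
  Submodule.span R {f | ∃ u : OWord, below u 0 noD = some (n, d) ∧ f = ap (extd Λ) u}

theorem eqOn (Λ : OWord → M) (n : ℕ) (d : ℕ → Bool) (φ ψ : (OWord → M) →ₗ[R] (OWord → M))
    (h : ∀ u, below u 0 noD = some (n, d) → φ (ap (extd Λ) u) = ψ (ap (extd Λ) u)) :
    ∀ f ∈ S R Λ n d, φ f = ψ f := by
  intro f hf
  refine LinearMap.eqOn_span
    (s := {f | ∃ u : OWord, below u 0 noD = some (n, d) ∧ f = ap (extd Λ) u}) ?_ hf
  rintro g ⟨u, hu, rfl⟩
  exact h u hu

theorem st_mem {Λ : OWord → M} {n m : ℕ} {d e : ℕ → Bool} {f : OWord → M}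
    (hf : f ∈ S R Λ n d) (p : OPiece) (h : p.below n d = some (m, e)) : st f p ∈ S R Λ m e := by
  have : (S R Λ n d).map (stL R p) ≤ S R Λ m e := by
    rw [S, Submodule.map_span, Submodule.span_le]
    rintro g ⟨g', ⟨u, hu, rfl⟩, rfl⟩
    refine Submodule.subset_span ⟨u ++ [p], ?_, ?_⟩
    · rw [below_append, hu]
      simp [below, h]
    · funext y
      show extd Λ (u ++ (p :: y)) = extd Λ ((u ++ [p]) ++ y)
      simp
  exact this (Submodule.mem_map_of_mem hf)

theorem st_eq_zero {Λ : OWord → M} {n : ℕ} {d : ℕ → Bool} {f : OWord → M}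
    (hf : f ∈ S R Λ n d) (p : OPiece) (h : p.below n d = none) : st f p = 0 := by
  refine eqOn (R := R) Λ n d (stL R p) 0 ?_ f hf
  intro u hu
  funext y
  show extd Λ (u ++ (p :: y)) = 0
  rw [extd, if_neg]
  rw [OClosed, below_append, hu]
  simp [below, h]

/-- the functionals of tangles with `n` ends, of any fixed directions -/
def T (R : Type) [CommRing R] {M : Type} [AddCommGroup M] [Module R M] (Λ : OWord → M) (n : ℕ)
    (f : OWord → M) : Prop := ∃ d, f ∈ S R Λ n d

theorem T_of_mem {Λ : OWord → M} {n : ℕ} {d : ℕ → Bool} {f : OWord → M} (hf : f ∈ S R Λ n d) :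
    T R Λ n f := ⟨d, hf⟩

theorem birth_mem {Λ : OWord → M} {n : ℕ} {d : ℕ → Bool} {f : OWord → M} (hf : f ∈ S R Λ n d)
    {i : ℕ} (b : Bool) (h : i ≤ n) : st f (birth i b) ∈ S R Λ (n + 2) (insD i b d) :=
  st_mem hf _ (by simp [OPiece.below, h])
theorem death_mem {Λ : OWord → M} {n : ℕ} {d : ℕ → Bool} {f : OWord → M}
    (hf : f ∈ S R Λ (n + 2) d) {i : ℕ} (h : i ≤ n) (hd : d (i + 1) = !d i) :
    st f (death i) ∈ S R Λ n (delD i d) := st_mem hf _ (by simp [OPiece.below, h, hd])
theorem pos_mem {Λ : OWord → M} {n : ℕ} {d : ℕ → Bool} {f : OWord → M} (hf : f ∈ S R Λ n d)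
    {i : ℕ} (h : i + 2 ≤ n) : st f (pos i) ∈ S R Λ n (swpD i d) :=
  st_mem hf _ (by simp [OPiece.below, h])
theorem neg_mem' {Λ : OWord → M} {n : ℕ} {d : ℕ → Bool} {f : OWord → M} (hf : f ∈ S R Λ n d)
    {i : ℕ} (h : i + 2 ≤ n) : st f (neg i) ∈ S R Λ n (swpD i d) :=
  st_mem hf _ (by simp [OPiece.below, h])

/-- a crossing of either kind -/
def cr (b : Bool) (i : ℕ) : OPiece := if b then pos i else neg i

theorem cr_true (i : ℕ) : cr true i = pos i := rfl
theorem cr_false (i : ℕ) : cr false i = neg i := rfl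

theorem cr_mem {Λ : OWord → M} {n : ℕ} {d : ℕ → Bool} {f : OWord → M} (hf : f ∈ S R Λ n d)
    (b : Bool) {i : ℕ} (h : i + 2 ≤ n) : st f (cr b i) ∈ S R Λ n (swpD i d) := by
  cases b
  · exact neg_mem' hf h
  · exact pos_mem hf h

theorem T_birth {Λ : OWord → M} {n : ℕ} {f : OWord → M} (hf : T R Λ n f) {i : ℕ} (b : Bool)
    (h : i ≤ n) : T R Λ (n + 2) (st f (birth i b)) := by
  obtain ⟨d, hd⟩ := hf
  exact ⟨_, birth_mem hd b h⟩

theorem T_cr {Λ : OWord → M} {n : ℕ} {f : OWord → M} (hf : T R Λ n f) (b : Bool) {i : ℕ}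
    (h : i + 2 ≤ n) : T R Λ n (st f (cr b i)) := by
  obtain ⟨d, hd⟩ := hf
  exact ⟨_, cr_mem hd b h⟩

theorem T_pos {Λ : OWord → M} {n : ℕ} {f : OWord → M} (hf : T R Λ n f) {i : ℕ}
    (h : i + 2 ≤ n) : T R Λ n (st f (pos i)) := T_cr hf true h

theorem T_neg {Λ : OWord → M} {n : ℕ} {f : OWord → M} (hf : T R Λ n f) {i : ℕ}
    (h : i + 2 ≤ n) : T R Λ n (st f (neg i)) := T_cr hf false h

theorem T_death {Λ : OWord → M} {n : ℕ} {f : OWord → M} (hf : T R Λ (n + 2) f) {i : ℕ}
    (h : i ≤ n) : T R Λ n (st f (death i)) := by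
  obtain ⟨d, hd⟩ := hf
  by_cases hc : d (i + 1) = !d i
  · exact ⟨_, death_mem hd h hc⟩
  · refine ⟨noD, ?_⟩
    rw [st_eq_zero hd (death i) (by simp [OPiece.below, hc])]
    exact Submodule.zero_mem _

variable {l l' m : R} {Λ : OWord → M} (hΛ : HomflyRules l l' m Λ)
include hΛ

theorem local_eq {n : ℕ} {d : ℕ → Bool} {p q : OWord}
    (hpq : LocalMove (forget p) (forget q) ∨ FirstMove (forget p) (forget q))
    (hb : below p n d = below q n d) {f : OWord → M} (hf : f ∈ S R Λ n d) : ap f p = ap f q := by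
  refine eqOn (R := R) Λ n d (apL R p) (apL R q) ?_ f hf
  intro u hu
  funext y
  show extd Λ (u ++ (p ++ y)) = extd Λ (u ++ (q ++ y))
  have h1 : below (u ++ (p ++ y)) 0 noD = (below p n d).bind fun s => below y s.1 s.2 := by
    rw [below_append, hu]
    simp [below_append]
  have h2 : below (u ++ (q ++ y)) 0 noD = (below p n d).bind fun s => below y s.1 s.2 := by
    rw [below_append, hu, hb]
    simp [below_append]
  by_cases hy : ((below p n d).bind fun s => below y s.1 s.2).map Prod.fst = some 0
  · have c1 : OClosed (u ++ (p ++ y)) := by rw [OClosed, h1, hy]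
    have c2 : OClosed (u ++ (q ++ y)) := by rw [OClosed, h2, hy]
    rw [extd, extd, if_pos c1, if_pos c2]
    refine hΛ.isotopy _ _ (Relation.EqvGen.rel _ _ ?_)
    rw [← List.append_assoc] at c1 c2 ⊢
    rw [← List.append_assoc]
    exact OStep.mk u p q y n d hpq hu hb c1 c2
  · have c1 : ¬ OClosed (u ++ (p ++ y)) := by rw [OClosed, h1]; exact hy
    have c2 : ¬ OClosed (u ++ (q ++ y)) := by rw [OClosed, h2]; exact hy
    rw [extd, extd, if_neg c1, if_neg c2]

theorem local_eqT {n : ℕ} {p q : OWord}
    (hpq : LocalMove (forget p) (forget q) ∨ FirstMove (forget p) (forget q))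
    (hb : ∀ d, below p n d = below q n d) {f : OWord → M} (hf : T R Λ n f) :
    ap f p = ap f q := by
  obtain ⟨d, hd⟩ := hf
  exact local_eq hΛ hpq (hb d) hd

/-! ### basic relations -/

theorem zig1 {n : ℕ} {d : ℕ → Bool} {f : OWord → M} (hf : f ∈ S R Λ n d) {i : ℕ} (h : i < n)
    {b : Bool} (hb : b = d i) : st (st f (birth i b)) (death (i + 1)) = f := by
  subst hb
  refine local_eq hΛ (p := [birth i (d i), death (i + 1)]) (q := [])
    (Or.inl (LocalMove.zigzag₁ i)) ?_ hf
  have h1 : i ≤ n := h.le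
  have h2 : i + 1 + 2 ≤ n + 2 := by omega
  have h3 : insD i (d i) d (i + 1 + 1) = !insD i (d i) d (i + 1) := by
    rw [insD_right, insD_gt _ _ (le_refl i), Bool.not_not]
  simp [below, OPiece.below, h1, h2, h3, del_ins_zig1]

theorem zig2 {n : ℕ} {d : ℕ → Bool} {f : OWord → M} (hf : f ∈ S R Λ n d) {i : ℕ} (h : i < n)
    {b : Bool} (hb : b = !d i) : st (st f (birth (i + 1) b)) (death i) = f := by
  subst hb
  refine local_eq hΛ (p := [birth (i + 1) (!d i), death i]) (q := [])
    (Or.inl (LocalMove.zigzag₂ i)) ?_ hf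
  have h1 : i + 1 ≤ n := h
  have h2 : i + 2 ≤ n + 2 := by omega
  have h3 : insD (i + 1) (!d i) d (i + 1) = !insD (i + 1) (!d i) d i := by
    rw [insD_left, insD_lt _ _ (Nat.lt_succ_self i)]
  simp [below, OPiece.below, h1, h2, h3, del_ins_zig2]

variable {n : ℕ} {f : OWord → M} (hf : T R Λ n f)
include hf

theorem sb1 {i : ℕ} (b : Bool) (h : i < n) :
    st (st f (birth i b)) (pos (i + 1)) = st (st f (birth (i + 1) b)) (neg i) := by
  refine local_eqT hΛ (p := [birth i b, pos (i + 1)]) (q := [birth (i + 1) b, neg i])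
    (Or.inl (LocalMove.slideBirth₁ i)) (fun d => ?_) hf
  have h1 : i ≤ n := h.le
  have h2 : i + 1 + 2 ≤ n + 2 := by omega
  have h3 : i + 1 ≤ n := h
  have h4 : i + 2 ≤ n + 2 := by omega
  simp [below, OPiece.below, h1, h2, h3, h4, swp_ins_slide]

theorem sb2 {i : ℕ} (b : Bool) (h : i < n) :
    st (st f (birth i b)) (neg (i + 1)) = st (st f (birth (i + 1) b)) (pos i) := by
  refine local_eqT hΛ (p := [birth i b, neg (i + 1)]) (q := [birth (i + 1) b, pos i])
    (Or.inl (LocalMove.slideBirth₂ i)) (fun d => ?_) hf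
  have h1 : i ≤ n := h.le
  have h2 : i + 1 + 2 ≤ n + 2 := by omega
  have h3 : i + 1 ≤ n := h
  have h4 : i + 2 ≤ n + 2 := by omega
  simp [below, OPiece.below, h1, h2, h3, h4, swp_ins_slide]

theorem sd1 {i : ℕ} (h : i + 3 ≤ n) :
    st (st f (pos (i + 1))) (death i) = st (st f (neg i)) (death (i + 1)) := by
  refine local_eqT hΛ (p := [pos (i + 1), death i]) (q := [neg i, death (i + 1)])
    (Or.inl (LocalMove.slideDeath₁ i)) (fun d => ?_) hf
  have h1 : i + 1 + 2 ≤ n := by omega
  have h2 : i + 2 ≤ n := by omega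
  have e1 : swpD (i + 1) d (i + 1) = d (i + 2) := swpD_left _ _
  have e2 : swpD (i + 1) d i = d i := swpD_lt d (Nat.lt_succ_self i)
  have e3 : swpD i d (i + 1 + 1) = d (i + 2) := swpD_gt d (le_refl _)
  have e4 : swpD i d (i + 1) = d i := swpD_right _ _
  simp [below, OPiece.below, h1, h2, e1, e2, e3, e4, del_swp_slide]

theorem sd2 {i : ℕ} (h : i + 3 ≤ n) :
    st (st f (neg (i + 1))) (death i) = st (st f (pos i)) (death (i + 1)) := by
  refine local_eqT hΛ (p := [neg (i + 1), death i]) (q := [pos i, death (i + 1)])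
    (Or.inl (LocalMove.slideDeath₂ i)) (fun d => ?_) hf
  have h1 : i + 1 + 2 ≤ n := by omega
  have h2 : i + 2 ≤ n := by omega
  have e1 : swpD (i + 1) d (i + 1) = d (i + 2) := swpD_left _ _
  have e2 : swpD (i + 1) d i = d i := swpD_lt d (Nat.lt_succ_self i)
  have e3 : swpD i d (i + 1 + 1) = d (i + 2) := swpD_gt d (le_refl _)
  have e4 : swpD i d (i + 1) = d i := swpD_right _ _
  simp [below, OPiece.below, h1, h2, e1, e2, e3, e4, del_swp_slide]

theorem pn {i : ℕ} (h : i + 2 ≤ n) : st (st f (pos i)) (neg i) = f := by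
  refine local_eqT hΛ (p := [pos i, neg i]) (q := []) (Or.inl (LocalMove.second₁ i))
    (fun d => ?_) hf
  simp [below, OPiece.below, h, swp_swp]

theorem np {i : ℕ} (h : i + 2 ≤ n) : st (st f (neg i)) (pos i) = f := by
  refine local_eqT hΛ (p := [neg i, pos i]) (q := []) (Or.inl (LocalMove.second₂ i))
    (fun d => ?_) hf
  simp [below, OPiece.below, h, swp_swp]

theorem br {i : ℕ} (h : i + 3 ≤ n) :
    st (st (st f (pos i)) (pos (i + 1))) (pos i) =
      st (st (st f (pos (i + 1))) (pos i)) (pos (i + 1)) := by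
  refine local_eqT hΛ (p := [pos i, pos (i + 1), pos i]) (q := [pos (i + 1), pos i, pos (i + 1)])
    (Or.inl (LocalMove.third i)) (fun d => ?_) hf
  have h1 : i + 1 + 2 ≤ n := by omega
  have h2 : i + 2 ≤ n := by omega
  simp [below, OPiece.below, h1, h2, swp_braid]

theorem curlBP {i : ℕ} (b : Bool) (h : i ≤ n) :
    st (st f (birth i b)) (pos i) = st f (birth i (!b)) := by
  refine local_eqT hΛ (p := [birth i b, pos i]) (q := [birth i (!b)])
    (Or.inr (FirstMove.birthPos i)) (fun d => ?_) hf
  simp [below, OPiece.below, h, swp_ins_same]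

theorem curlBN {i : ℕ} (b : Bool) (h : i ≤ n) :
    st (st f (birth i b)) (neg i) = st f (birth i (!b)) := by
  refine local_eqT hΛ (p := [birth i b, neg i]) (q := [birth i (!b)])
    (Or.inr (FirstMove.birthNeg i)) (fun d => ?_) hf
  simp [below, OPiece.below, h, swp_ins_same]

theorem curlDP {i : ℕ} (h : i + 2 ≤ n) : st (st f (pos i)) (death i) = st f (death i) := by
  refine local_eqT hΛ (p := [pos i, death i]) (q := [death i])
    (Or.inr (FirstMove.deathPos i)) (fun d => ?_) hf
  have e : (d i = !d (i + 1)) ↔ (d (i + 1) = !d i) := by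
    cases d i <;> cases d (i + 1) <;> simp
  simp [below, OPiece.below, h, del_swp_same, swpD, e]

theorem curlDN {i : ℕ} (h : i + 2 ≤ n) : st (st f (neg i)) (death i) = st f (death i) := by
  refine local_eqT hΛ (p := [neg i, death i]) (q := [death i])
    (Or.inr (FirstMove.deathNeg i)) (fun d => ?_) hf
  have e : (d i = !d (i + 1)) ↔ (d (i + 1) = !d i) := by
    cases d i <;> cases d (i + 1) <;> simp
  simp [below, OPiece.below, h, del_swp_same, swpD, e]

/-- `e1`: far crossings commute -/
theorem xx (b c : Bool) {i j : ℕ} (h : i + 2 ≤ j) (hj : j + 2 ≤ n) :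
    st (st f (cr b i)) (cr c j) = st (st f (cr c j)) (cr b i) := by
  have hi : i + 2 ≤ n := by omega
  cases b <;> cases c
  · refine local_eqT hΛ (p := [neg i, neg j]) (q := [neg j, neg i])
      (Or.inl (LocalMove.exchange (.neg i) (.neg j) h)) (fun d => ?_) hf
    simp [below, OPiece.below, hi, hj, swp_swp_far d h]
  · refine local_eqT hΛ (p := [neg i, pos j]) (q := [pos j, neg i])
      (Or.inl (LocalMove.exchange (.neg i) (.pos j) h)) (fun d => ?_) hf
    simp [below, OPiece.below, hi, hj, swp_swp_far d h]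
  · refine local_eqT hΛ (p := [pos i, neg j]) (q := [neg j, pos i])
      (Or.inl (LocalMove.exchange (.pos i) (.neg j) h)) (fun d => ?_) hf
    simp [below, OPiece.below, hi, hj, swp_swp_far d h]
  · refine local_eqT hΛ (p := [pos i, pos j]) (q := [pos j, pos i])
      (Or.inl (LocalMove.exchange (.pos i) (.pos j) h)) (fun d => ?_) hf
    simp [below, OPiece.below, hi, hj, swp_swp_far d h]

/-- `e2`: birth to the left of a crossing -/
theorem bx (c b : Bool) {i k : ℕ} (h : i ≤ k) (hk : k + 2 ≤ n) :
    st (st f (birth i b)) (cr c (k + 2)) = st (st f (cr c k)) (birth i b) := by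
  have hl : i ≤ n := by omega
  have hk' : k + 2 + 2 ≤ n + 2 := by omega
  cases c
  · refine local_eqT hΛ (p := [birth i b, neg (k + 2)]) (q := [neg k, birth i b])
      (Or.inl (LocalMove.exchange (.birth i) (.neg k) h)) (fun d => ?_) hf
    simp [below, OPiece.below, hl, hk, hk', swp_ins_right d b h]
  · refine local_eqT hΛ (p := [birth i b, pos (k + 2)]) (q := [pos k, birth i b])
      (Or.inl (LocalMove.exchange (.birth i) (.pos k) h)) (fun d => ?_) hf
    simp [below, OPiece.below, hl, hk, hk', swp_ins_right d b h]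

/-- `e3`: crossing to the left of a birth -/
theorem xb (c b : Bool) {i k : ℕ} (h : k + 2 ≤ i) (hl : i ≤ n) :
    st (st f (cr c k)) (birth i b) = st (st f (birth i b)) (cr c k) := by
  have hk : k + 2 ≤ n := by omega
  have hk' : k + 2 ≤ n + 2 := by omega
  cases c
  · refine local_eqT hΛ (p := [neg k, birth i b]) (q := [birth i b, neg k])
      (Or.inl (LocalMove.exchange (.neg k) (.birth i) h)) (fun d => ?_) hf
    simp [below, OPiece.below, hl, hk, hk', swp_ins_left d b h]
  · refine local_eqT hΛ (p := [pos k, birth i b]) (q := [birth i b, pos k])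
      (Or.inl (LocalMove.exchange (.pos k) (.birth i) h)) (fun d => ?_) hf
    simp [below, OPiece.below, hl, hk, hk', swp_ins_left d b h]

/-- `e4`: two births -/
theorem bb (b c : Bool) {i j : ℕ} (h : i ≤ j) (hj : j ≤ n) :
    st (st f (birth i b)) (birth (j + 2) c) = st (st f (birth j c)) (birth i b) := by
  have hi : i ≤ n := by omega
  have hj' : j + 2 ≤ n + 2 := by omega
  have hi' : i ≤ n + 2 := by omega
  refine local_eqT hΛ (p := [birth i b, birth (j + 2) c]) (q := [birth j c, birth i b])
    (Or.inl (LocalMove.exchange (.birth i) (.birth j) h)) (fun d => ?_) hf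
  simp [below, OPiece.below, hi, hj, hj', hi', ins_ins d b c h]

/-- `e5`: crossing to the left of a death -/
theorem xd (c : Bool) {k j : ℕ} (h : k + 2 ≤ j) (hj : j + 2 ≤ n) :
    st (st f (cr c k)) (death j) = st (st f (death j)) (cr c k) := by
  have hk : k + 2 ≤ n := by omega
  have hk' : k + 2 ≤ n - 2 := by omega
  have e1 : ∀ d, swpD k d j = d j := fun d => by
    simp only [swpD]; split_ifs <;> first | rfl | (exfalso; omega)
  have e2 : ∀ d, swpD k d (j + 1) = d (j + 1) := fun d => by
    simp only [swpD]; split_ifs <;> first | rfl | (exfalso; omega)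
  cases c
  · refine local_eqT hΛ (p := [neg k, death j]) (q := [death j, neg k])
      (Or.inl (LocalMove.exchange (.neg k) (.death j) h)) (fun d => ?_) hf
    by_cases hd : d (j + 1) = !d j
    · simp [below, OPiece.below, hj, hk, hk', e1, e2, hd, del_swp_right d h]
    · simp [below, OPiece.below, hj, hk, e1, e2, hd]
  · refine local_eqT hΛ (p := [pos k, death j]) (q := [death j, pos k])
      (Or.inl (LocalMove.exchange (.pos k) (.death j) h)) (fun d => ?_) hf
    by_cases hd : d (j + 1) = !d j
    · simp [below, OPiece.below, hj, hk, hk', e1, e2, hd, del_swp_right d h]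
    · simp [below, OPiece.below, hj, hk, e1, e2, hd]

/-- `e6`: death to the left of a crossing -/
theorem dx (c : Bool) {k j : ℕ} (h : j ≤ k) (hk : k + 4 ≤ n) :
    st (st f (death j)) (cr c k) = st (st f (cr c (k + 2))) (death j) := by
  have hj : j + 2 ≤ n := by omega
  have hk1 : k + 2 ≤ n - 2 := by omega
  have hk2 : k + 2 + 2 ≤ n := by omega
  have hh : j + 2 ≤ k + 2 := by omega
  have e1 : ∀ d, swpD (k + 2) d j = d j := fun d => by
    simp only [swpD]; split_ifs <;> first | rfl | (exfalso; omega)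
  have e2 : ∀ d, swpD (k + 2) d (j + 1) = d (j + 1) := fun d => by
    simp only [swpD]; split_ifs <;> first | rfl | (exfalso; omega)
  cases c
  · refine local_eqT hΛ (p := [death j, neg k]) (q := [neg (k + 2), death j])
      (Or.inl (LocalMove.exchange (.death j) (.neg (k + 2)) hh)) (fun d => ?_) hf
    by_cases hd : d (j + 1) = !d j
    · simp [below, OPiece.below, hj, hk1, hk2, e1, e2, hd, del_swp_left d h]
    · simp [below, OPiece.below, hj, hk2, e1, e2, hd]
  · refine local_eqT hΛ (p := [death j, pos k]) (q := [pos (k + 2), death j])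
      (Or.inl (LocalMove.exchange (.death j) (.pos (k + 2)) hh)) (fun d => ?_) hf
    by_cases hd : d (j + 1) = !d j
    · simp [below, OPiece.below, hj, hk1, hk2, e1, e2, hd, del_swp_left d h]
    · simp [below, OPiece.below, hj, hk2, e1, e2, hd]

/-- `e7`: birth to the left of a death -/
theorem bd (b : Bool) {i j : ℕ} (h : i ≤ j) (hj : j + 2 ≤ n) :
    st (st f (birth i b)) (death (j + 2)) = st (st f (death j)) (birth i b) := by
  have hl : i ≤ n := by omega
  have hj' : j + 2 + 2 ≤ n + 2 := by omega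
  have hl' : i ≤ n - 2 := by omega
  have e1 : ∀ d, insD i b d (j + 2) = d j := fun d => by
    simp only [insD]; split_ifs <;> first | rfl | (exfalso; omega)
  have e2 : ∀ d, insD i b d (j + 2 + 1) = d (j + 1) := fun d => by
    simp only [insD]; split_ifs <;> first | rfl | (exfalso; omega)
  have hn : n - 2 + 2 = n := by omega
  refine local_eqT hΛ (p := [birth i b, death (j + 2)]) (q := [death j, birth i b])
    (Or.inl (LocalMove.exchange (.birth i) (.death j) h)) (fun d => ?_) hf
  by_cases hd : d (j + 1) = !d j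
  · simp [below, OPiece.below, hj, hj', hl, hl', hn, e1, e2, hd, del_ins_right d b h]
  · simp [below, OPiece.below, hj, hl, e1, e2, hd]

/-- `e8`: death to the left of a birth -/
theorem db (b : Bool) {i j : ℕ} (h : j ≤ i) (hl : i + 2 ≤ n) :
    st (st f (death j)) (birth i b) = st (st f (birth (i + 2) b)) (death j) := by
  have hj : j + 2 ≤ n := by omega
  have hj' : j + 2 ≤ n + 2 := by omega
  have hl' : i ≤ n - 2 := by omega
  have hh : j + 2 ≤ i + 2 := by omega
  have e1 : ∀ d, insD (i + 2) b d j = d j := fun d => by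
    simp only [insD]; split_ifs <;> first | rfl | (exfalso; omega)
  have e2 : ∀ d, insD (i + 2) b d (j + 1) = d (j + 1) := fun d => by
    simp only [insD]; split_ifs <;> first | rfl | (exfalso; omega)
  have hn : n - 2 + 2 = n := by omega
  refine local_eqT hΛ (p := [death j, birth i b]) (q := [birth (i + 2) b, death j])
    (Or.inl (LocalMove.exchange (.death j) (.birth (i + 2)) hh)) (fun d => ?_) hf
  by_cases hd : d (j + 1) = !d j
  · simp [below, OPiece.below, hj, hj', hl, hl', hn, e1, e2, hd, del_ins_left d b h]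
  · simp [below, OPiece.below, hj, hl, e1, e2, hd]

/-- the strand running over slides across a crossing -/
theorem slideX (c : Bool) {j : ℕ} (h : j + 3 ≤ n) :
    st (st (st f (neg j)) (neg (j + 1))) (cr c j) =
      st (st (st f (cr c (j + 1))) (neg j)) (neg (j + 1)) := by
  have h1 : j + 2 ≤ n := by omega
  have h2 : j + 1 + 2 ≤ n := by omega
  have m1 := T_neg hf h1
  have m2 := T_neg m1 h2
  cases c
  · -- all negative
    have m3 := T_neg m2 h1
    have e := br hΛ m3 h
    rw [np hΛ m2 h1, np hΛ m1 h2, np hΛ hf h1] at e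
    rw [cr_false, cr_false]
    have e2 : st (st (st f (neg (j + 1))) (neg j)) (neg (j + 1)) =
        st (st (st (st (st (st (st (st (st f (neg j)) (neg (j + 1))) (neg j)) (pos (j + 1)))
          (pos j)) (pos (j + 1))) (neg (j + 1))) (neg j)) (neg (j + 1)) := by
      rw [← e]
    rw [e2]
    have q1 := T_pos m3 h2
    have q2 := T_pos q1 h1
    rw [pn hΛ q2 h2, pn hΛ q1 h1, pn hΛ m3 h2]
  · have e := br hΛ m2 h
    rw [np hΛ m1 h2, np hΛ hf h1] at e
    rw [cr_true, cr_true, ← e]
    have q1 := T_pos m2 h1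
    have q2 := T_pos q1 h2
    rw [pn hΛ q2 h1, pn hΛ q1 h2]

end

end

end Pool.Agent.Helper454.Wh
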