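import Pool.Agent.Helper454.Wh.Defs

set_option autoImplicit false

namespace Pool.Agent.Helper454.Wh

open Pool.Agent.Helper454.Kauf (Piece Word)

/-- the part of the diagram of the knot above the clasp -/
def K1 : Word := [.birth 0]

/-- the part of the diagram of the knot below the clasp -/
def K2 : Word :=
  [.birth 2, .pos 1, .pos 1, .birth 4, .pos 3, .neg 2, .pos 3, .pos 4, .neg 2, .pos 4, .pos 1,
    .pos 3, .pos 3, .neg 2, .neg 1, .neg 1, .neg 2, .neg 2, .neg 1, .death 0, .pos 2, .neg 1,
    .death 2, .death 0]

/-- the diagram of the knot -/
def KW : Word := K1 ++ K2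

/-- the diagram of the Whitehead double -/
def W : OWord := double K1 ++ clasp true 0 ++ double K2

/-- the diagram of the Whitehead double without its last minimum -/
def W0 : OWord := W.dropLast

end Pool.Agent.Helper454.Wh
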