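import Pool.Agent.Helper454.Wh.Run
import Pool.Agent.Helper454.Wh.Words

set_option autoImplicit false

namespace Pool.Agent.Helper454.Wh

theorem ok0 : okW W0 0 0 = true := by decide +kernel

/-- the value of the Whitehead double, computed by the kernel -/
theorem run0 : headP (run W0 s0) =
    (1, 2, ⟨4542464, 18611191808, 1414600000, 21747536896⟩) := by decide +kernel

end Pool.Agent.Helper454.Wh
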