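import Pool.Agent.Helper454.Kauf.Defs

/-!
# Oriented link diagrams, the HOMFLY polynomial and Whitehead doubles

Unoriented sliced diagrams (`Piece`, `Word`, `Closed`, `LocalMove`, `FirstMove`, `Isotopic`,
`IsKnot`) and the rules of the Kauffman polynomial are those of `Pool.Agent.Helper454.Kauf.Defs`.
-/

set_option autoImplicit false

namespace Pool.Agent.Helper454.Wh

open LaurentPolynomial
open Pool.Agent.Helper454.Kauf (Piece Word LocalMove FirstMove Isotopic IsKnot width circle)

/-- The elementary pieces of an oriented sliced diagram. In `birth i b`, the left one of the two new
strands (at the positions `i`, `i+1`) is directed downwards if `b = true` and upwards if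
`b = false`, and the right one the other way; the directions of all other strands follow. -/
inductive OPiece : Type
  | birth (i : ℕ) (b : Bool) : OPiece
  | death (i : ℕ) : OPiece
  | pos (i : ℕ) : OPiece
  | neg (i : ℕ) : OPiece
  deriving DecidableEq

/-- Oriented diagrams, read from top to bottom. -/
abbrev OWord : Type := List OPiece

/-- Two new strands at the positions `i`, `i+1`, with the directions `b` and `!b`. Here `d k` is the
direction of the strand `k` (`true` = downwards). -/
def insD (i : ℕ) (b : Bool) (d : ℕ → Bool) : ℕ → Bool := fun k =>
  if k < i then d k else if k = i then b else if k = i + 1 then !b else d (k - 2)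

/-- The strands `i`, `i+1` disappear. -/
def delD (i : ℕ) (d : ℕ → Bool) : ℕ → Bool := fun k => if k < i then d k else d (k + 2)

/-- The strands `i`, `i+1` change places. -/
def swpD (i : ℕ) (d : ℕ → Bool) : ℕ → Bool := fun k =>
  if k = i then d (i + 1) else if k = i + 1 then d i else d k

namespace OPiece

/-- Forgetting the orientation. -/
def forget : OPiece → Piece
  | birth i _ => Piece.birth i
  | death i => Piece.death i
  | pos i => Piece.pos i
  | neg i => Piece.neg i

/-- The number of strands below the piece and their directions, if there are `n` strands with the
directions `d` above it; `none` if the piece does not fit. A minimum has to join two strands with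
opposite directions. -/
def below : OPiece → ℕ → (ℕ → Bool) → Option (ℕ × (ℕ → Bool))
  | birth i b, n, d => if i ≤ n then some (n + 2, insD i b d) else none
  | death i, n, d => if i + 2 ≤ n ∧ d (i + 1) = !d i then some (n - 2, delD i d) else none
  | pos i, n, d => if i + 2 ≤ n then some (n, swpD i d) else none
  | neg i, n, d => if i + 2 ≤ n then some (n, swpD i d) else none

end OPiece

open OPiece

/-- The number of strands below an oriented diagram and their directions, if there are `n` strands
with the directions `d` above it. -/
def below : OWord → ℕ → (ℕ → Bool) → Option (ℕ × (ℕ → Bool))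
  | [], n, d => some (n, d)
  | p :: w, n, d => (p.below n d).bind fun s => below w s.1 s.2

/-- The directions when there are no strands (irrelevant). -/
def noD : ℕ → Bool := fun _ => false

/-- Oriented link diagrams: no endpoints, and all orientations match. -/
def OClosed (w : OWord) : Prop := (below w 0 noD).map Prod.fst = some 0

/-- The directions of the strands below an oriented diagram without strands at its top. -/
def dirs (w : OWord) : ℕ → Bool := ((below w 0 noD).getD (0, noD)).2

/-- The underlying unoriented diagram. -/
def forget (w : OWord) : Word := w.map OPiece.forget

/-- Two oriented link diagrams differ by one move of sliced diagrams (planar isotopy or a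
Reidemeister move), compatible with the orientations: the parts `l` and `r` which are exchanged have
the same directions at their ends. -/
inductive OStep : OWord → OWord → Prop
  | mk (x l r y : OWord) (n : ℕ) (d : ℕ → Bool) :
      LocalMove (forget l) (forget r) ∨ FirstMove (forget l) (forget r) →
      below x 0 noD = some (n, d) → below l n d = below r n d →
      OClosed (x ++ l ++ y) → OClosed (x ++ r ++ y) → OStep (x ++ l ++ y) (x ++ r ++ y)

/-- Isotopy of oriented links, for their diagrams. -/
def OIsotopic : OWord → OWord → Prop := Relation.EqvGen OStep

/-- The crossingless oriented circle. -/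
def ocircle : OWord := [birth 0 true, death 0]

/-- The rules of the HOMFLY (skein) polynomial for a function `Λ` on oriented link diagrams with
values in a module over a ring with the elements `l`, `l'` (which will be the inverse of `l`) and
`m`: invariance under isotopy, and `l⁻¹ Λ(L₊) - l Λ(L₋) = m Λ(L₀)`.
At a place where the strands `i` and `i+1` have the same direction, `pos i` is the positive
crossing, `neg i` is the negative crossing and the oriented smoothing is the empty diagram; at a
place where they have opposite directions, `neg i` is the positive crossing, `pos i` is the negative
crossing, and the oriented smoothing consists of a minimum and a maximum. -/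
structure HomflyRules {R : Type} [CommRing R] (l l' m : R) {M : Type} [AddCommGroup M] [Module R M]
    (Λ : OWord → M) : Prop where
  isotopy : ∀ D E, OIsotopic D E → Λ D = Λ E
  parallel : ∀ x i y, OClosed (x ++ [pos i] ++ y) → dirs x i = dirs x (i + 1) →
    l' • Λ (x ++ [pos i] ++ y) - l • Λ (x ++ [neg i] ++ y) = m • Λ (x ++ y)
  antiparallel : ∀ x i y, OClosed (x ++ [neg i] ++ y) → dirs x i ≠ dirs x (i + 1) →
    l' • Λ (x ++ [neg i] ++ y) - l • Λ (x ++ [pos i] ++ y) =
      m • Λ (x ++ [death i, birth i (dirs x (i + 1))] ++ y)

/-- The ring `ℤ[l^{±1}, m^{±1}]`, as Laurent polynomials in `m` over Laurent polynomials in `l`. -/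
abbrev Rlm : Type := LaurentPolynomial (LaurentPolynomial ℤ)

/-- The power `l^n`. -/
noncomputable def lPow (n : ℤ) : Rlm := C (T n)

/-- The power `m^n`. -/
noncomputable def mPow (n : ℤ) : Rlm := T n

/-- `Λ` is the HOMFLY polynomial: it obeys the rules, and its value on the unknot is `1`. -/
def IsHomfly (Λ : OWord → Rlm) : Prop :=
  HomflyRules (lPow 1) (lPow (-1)) (mPow 1) Λ ∧ Λ ocircle = 1

/-- The exponents of `m` which occur in `p`. -/
def mExponents (p : Rlm) : Set ℤ := {k | p.coeff k ≠ 0}

/-- The exponents of `z` which occur in a polynomial in `a` and `z`. -/
def zExponents (p : Kauf.Raz) : Set ℤ := {k | ∃ j, (p.coeff j).coeff k ≠ 0}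

/-! ### Whitehead doubles -/

/-- A piece with every strand replaced by two parallel strands: the strand `i` becomes the strands
`2i` (directed upwards) and `2i+1` (directed downwards). -/
def dblP : Piece → OWord
  | .birth i => [birth (2 * i) false, birth (2 * i + 1) true]
  | .death i => [death (2 * i + 1), death (2 * i)]
  | .pos i => [pos (2 * i + 1), pos (2 * i), pos (2 * i + 2), pos (2 * i + 1)]
  | .neg i => [neg (2 * i + 1), neg (2 * i), neg (2 * i + 2), neg (2 * i + 1)]

/-- The diagram in which every strand is replaced by two parallel strands with opposite
directions. -/
def double (w : Word) : OWord := (w.map dblP).flatten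

/-- A clasp, in place of the two parallel strands `2i` and `2i+1`: the two ends above are joined by
an arc which is hooked with the arc joining the two ends below. -/
def clasp (c : Bool) (i : ℕ) : OWord :=
  if c then [birth (2 * i + 2) false, pos (2 * i + 1), pos (2 * i + 1), death (2 * i)]
  else [birth (2 * i + 2) false, neg (2 * i + 1), neg (2 * i + 1), death (2 * i)]

/-- `W` is a diagram of a Whitehead double of the knot with diagram `K`: some diagram `x ++ y` of the
knot is doubled, and the two parallel strands which replace one strand at the height between `x` and
`y` are closed by a clasp. (The number `t` of full twists of the two strands is the writhe of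
`x ++ y`; every `t` occurs, as curls can be added.) -/
def IsWhiteheadDouble (K : Word) (W : OWord) : Prop :=
  ∃ (x y : Word) (c : Bool) (i n : ℕ), Isotopic K (x ++ y) ∧ width x 0 = some n ∧ i < n ∧
    OIsotopic W (double x ++ clasp c i ++ double y)

end Pool.Agent.Helper454.Wh
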