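import Pool.Agent.Helper454.Wh.Sound

set_option autoImplicit false

namespace Pool.Agent.Helper454.Wh

open OPiece

set_option linter.unreachableTactic false
set_option linter.unusedTactic false

/-! ### identities between directions -/

theorem rem_gD0 (e : ℕ) (a : Bool) (D : ℕ → Bool) : remD e (gD 0 e a D) = D := by
  funext q
  simp only [remD, gD]
  split_ifs <;> first | rfl | (exfalso; omega) | (congr 1; omega)

theorem rem_gD_far {e l g : ℕ} (b : Bool) (D : ℕ → Bool) (h : e ≤ l) :
    remD e (gD (l + 2) g b D) = gD l g b (remD e D) := by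
  funext q
  simp only [remD, gD]
  split_ifs <;> first | rfl | (exfalso; omega) | (congr 1; omega)

theorem rem_gD_nested {e l g : ℕ} (b : Bool) (D : ℕ → Bool) (h : l + g ≤ e) :
    remD (e + 2) (gD (l + 1) g b D) = gD l g b (remD e D) := by
  funext q
  simp only [remD, gD]
  split_ifs <;> first | rfl | (exfalso; omega) | (congr 1; omega)

theorem rem_gD_cross1 (i c k : ℕ) (b : Bool) (D : ℕ → Bool) :
    remD (i + c + 1) (gD (i + 1) (c + 1 + k) b D) = gD i (c + k) b (remD (i + c) D) := by
  funext q
  simp only [remD, gD]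
  split_ifs <;> first | rfl | (exfalso; omega) | (congr 1; omega)

theorem rem_gD_cross2 (i c k : ℕ) (b : Bool) (D : ℕ → Bool) (h : D (i + c + 1) = !b) :
    remD (i + c + k + 2) (gD (i + 1) (c + 1 + k) b D) = gD i c b (remD (i + c) D) := by
  funext q
  simp only [remD, gD]
  split_ifs <;> first
    | rfl
    | (exfalso; omega)
    | (congr 1; omega)
    | exact h
    | exact h.symm
    | (rw [← h]; congr 1; omega)
    | (rw [← h]; congr 1)

theorem rem_gD_cross3 (i c k : ℕ) (b : Bool) (D : ℕ → Bool) (h : D (i + c + 1) = b) :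
    remD i (gD (i + 1) (c + 1 + k) b D) = gD (i + c) k b (remD (i + c) D) := by
  funext q
  simp only [remD, gD]
  split_ifs <;> first
    | rfl
    | (exfalso; omega)
    | (congr 1; omega)
    | exact h
    | exact h.symm
    | (rw [← h]; congr 1; omega)
    | (rw [← h]; congr 1)

theorem rem_swp0 (D : ℕ → Bool) : remD 0 (swpD 0 D) = remD 0 D := by
  funext q
  simp only [remD, swpD]
  split_ifs <;> first | rfl | (exfalso; omega) | (congr 1; omega)

theorem gD1_swp {e : ℕ} (D : ℕ → Bool) (h : D (e + 2) = !D 0) :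
    gD 1 e (D 0) (remD (e + 1) D) = swpD 0 D := by
  funext q
  simp only [remD, gD, swpD]
  split_ifs <;> first
    | rfl
    | (exfalso; omega)
    | (congr 1; omega)
    | exact h
    | exact h.symm
    | (rw [← h]; congr 1; omega)
    | (rw [← h]; congr 1)

theorem rem_swp0_par (e : ℕ) (D : ℕ → Bool) (h : D 1 = D 0) :
    remD e (swpD 0 D) = remD e D := by
  have : swpD 0 D = D := by
    funext q
    simp only [swpD]
    split_ifs with h1 h2
    · rw [h1, ← h]
    · rw [h2, ← h]
    · rfl
  rw [this]

theorem movR_rem {e : ℕ} (D : ℕ → Bool) (h : D (e + 2) = D 1) :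
    movR 0 e (remD (e + 1) D) = remD 0 (swpD 0 D) := by
  funext q
  simp only [remD, movR, swpD]
  split_ifs <;> first
    | rfl
    | (exfalso; omega)
    | (congr 1; omega)
    | (rw [show q + 2 = e + 2 by omega, h])

theorem rem_swp_slide {e i : ℕ} (D : ℕ → Bool) (h : i + 2 ≤ e) :
    remD e (swpD (i + 1) D) = swpD i (remD e D) := by
  funext q
  simp only [remD, swpD]
  split_ifs <;> first | rfl | (exfalso; omega) | (congr 1; omega)

theorem rem_swp_right {e i : ℕ} (D : ℕ → Bool) (h : e ≤ i) :
    remD e (swpD (i + 2) D) = swpD i (remD e D) := by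
  funext q
  simp only [remD, swpD]
  split_ifs <;> first | rfl | (exfalso; omega) | (congr 1; omega)

theorem rem_swp_next (e : ℕ) (D : ℕ → Bool) : remD (e + 1) (swpD (e + 1) D) = remD e D := by
  funext q
  simp only [remD, swpD]
  split_ifs <;> first | rfl | (exfalso; omega) | (congr 1; omega)

theorem swp_par (j : ℕ) (D : ℕ → Bool) (h : D (j + 1) = D j) : swpD j D = D := by
  funext q
  simp only [swpD]
  split_ifs with h1 h2
  · rw [h1, ← h]
  · rw [h2, ← h]
  · rfl

theorem gD_movL (e : ℕ) (a : Bool) (D : ℕ → Bool) (h1 : D (e + 1) = !a) (h2 : D (e + 2) = a)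
    (h3 : D 0 = a) : gD (e + 1) 0 a (movL e (remD e D)) = swpD (e + 1) D := by
  funext q
  simp only [remD, gD, movL, swpD]
  split_ifs <;> first
    | rfl
    | (exfalso; omega)
    | (congr 1; omega)
    | exact h1.symm
    | exact h2.symm
    | (rw [← h1]; congr 1; omega)
    | (rw [← h2]; congr 1; omega)
    | (rw [show q = 0 by omega, h3]; exact h2)
    | (rw [show q = 0 by omega, h3, ← h2]; congr 1; omega)

theorem rem_swp_end (e : ℕ) (D : ℕ → Bool) : remD e (swpD (e + 1) D) = remD (e + 1) D := by
  funext q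
  simp only [remD, swpD]
  split_ifs <;> first | rfl | (exfalso; omega) | (congr 1; omega)

theorem gD_movL' (e : ℕ) (a : Bool) (D : ℕ → Bool) (h1 : D (e + 1) = a) (h2 : D (e + 2) = !a)
    (h3 : D 0 = a) : gD (e + 1) 0 (!a) (movL e (remD (e + 1) D)) = swpD (e + 1) D := by
  funext q
  simp only [remD, gD, movL, swpD]
  split_ifs <;> first
    | rfl
    | (exfalso; omega)
    | (congr 1; omega)
    | exact h2.symm
    | (rw [Bool.not_not]; exact h1.symm)
    | (rw [← h2]; congr 1; omega)
    | (rw [Bool.not_not, ← h1]; congr 1; omega)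
    | (rw [show q = 0 by omega, h3]; exact h1)
    | (rw [show q = 0 by omega, h3, ← h1]; congr 1; omega)

theorem del_zero_rem (D : ℕ → Bool) : delD 0 D = remD 0 D := by
  funext q
  simp only [remD, delD]
  split_ifs <;> first | rfl | (exfalso; omega) | (congr 1; omega)

theorem movR_rem' {e : ℕ} (D : ℕ → Bool) (h : D (e + 2) = D 1) :
    movR 0 e (remD (e + 1) D) = delD 0 D := by
  funext q
  simp only [remD, movR, delD]
  split_ifs <;> first
    | rfl
    | (exfalso; omega)
    | (congr 1; omega)
    | (rw [show q + 2 = e + 2 by omega, h])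

theorem rem_del_slide {e i : ℕ} (D : ℕ → Bool) (h : i ≤ e) :
    remD e (delD (i + 1) D) = delD i (remD (e + 2) D) := by
  funext q
  simp only [remD, delD]
  split_ifs <;> first | rfl | (exfalso; omega) | (congr 1; omega)

theorem rem_del_right {e i : ℕ} (D : ℕ → Bool) (h : e ≤ i) :
    remD e (delD (i + 2) D) = delD i (remD e D) := by
  funext q
  simp only [remD, delD]
  split_ifs <;> first | rfl | (exfalso; omega) | (congr 1; omega)

theorem movL_rem {e : ℕ} (D : ℕ → Bool) (h : D (e + 2) = D 0) :
    movL e (remD e D) = delD (e + 1) D := by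
  funext q
  simp only [remD, movL, delD]
  split_ifs <;> first
    | rfl
    | (exfalso; omega)
    | (congr 1; omega)
    | (rw [show q = 0 by omega, ← h])
    | (rw [show q = 0 by omega, ← h]; congr 1; omega)

theorem movL_rem' {e : ℕ} (D : ℕ → Bool) (h : D (e + 1) = D 0) :
    movL e (remD (e + 1) D) = delD (e + 1) D := by
  funext q
  simp only [remD, movL, delD]
  split_ifs <;> first
    | rfl
    | (exfalso; omega)
    | (congr 1; omega)
    | (rw [show q = 0 by omega, ← h])
    | (rw [show q = 0 by omega, ← h]; congr 1; omega)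

/-! ### support -/

/-- there is nothing from the position `n` on -/
def Sup (n : ℕ) (D : ℕ → Bool) : Prop := ∀ q, n ≤ q → D q = false

theorem Sup.rem {k e : ℕ} {D : ℕ → Bool} (h : Sup (2 * (k + 1)) D) (he : e ≤ 2 * k) :
    Sup (2 * k) (remD e D) := by
  intro q hq
  simp only [remD]
  split_ifs
  · omega
  · exact h _ (by omega)

theorem Sup.swp {n j : ℕ} {D : ℕ → Bool} (h : Sup n D) (hj : j + 2 ≤ n) : Sup n (swpD j D) := by
  intro q hq
  simp only [swpD]
  split_ifs
  · omega
  · omega
  · exact h _ hq

theorem Sup.mvL {n k : ℕ} {D : ℕ → Bool} (h : Sup n D) (hk : k + 1 ≤ n) :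
    Sup n (movL k D) := by
  intro q hq
  simp only [movL]
  split_ifs
  · omega
  · omega
  · exact h _ hq

theorem Sup.gd {n l g : ℕ} {D : ℕ → Bool} (b : Bool) (h : Sup n D) (hl : l + g ≤ n) :
    Sup (n + 2) (gD l g b D) := by
  intro q hq
  simp only [gD]
  split_ifs <;> first | (exfalso; omega) | exact h _ (by omega)

theorem Sup.del {n j : ℕ} {D : ℕ → Bool} (h : Sup (n + 2) D) (hl : j ≤ n) :
    Sup n (delD j D) := by
  intro q hq
  simp only [delD]
  split_ifs <;> first | (exfalso; omega) | exact h _ (by omega)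

end Pool.Agent.Helper454.Wh
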