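import Mathlib

set_option autoImplicit false

namespace Pool.Agent.Helper454.Wh

noncomputable section

/-- Polynomials in `m` over the ring `ℤ/4[w]`, `w² + w + 1 = 0`, as four bit planes: the coefficient
of `m^i` is `(a_i + 2 b_i) + (c_i + 2 d_i) w` with the binary digits `a_i` of `a` etc. -/
structure PM where
  a : ℕ
  b : ℕ
  c : ℕ
  d : ℕ
  deriving DecidableEq

namespace PM

def zero : PM := ⟨0, 0, 0, 0⟩

def add (p q : PM) : PM :=
  PM.casesOn (motive := fun _ => PM) p fun a b c d =>
    PM.casesOn (motive := fun _ => PM) q fun a' b' c' d' =>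
      ⟨Nat.xor a a', Nat.xor (Nat.xor b b') (Nat.land a a'), Nat.xor c c',
        Nat.xor (Nat.xor d d') (Nat.land c c')⟩

/-- multiplication by `-1` -/
def neg (p : PM) : PM :=
  PM.casesOn (motive := fun _ => PM) p fun a b c d => ⟨a, Nat.xor a b, c, Nat.xor c d⟩

/-- multiplication by `m` -/
def mulM (p : PM) : PM :=
  PM.casesOn (motive := fun _ => PM) p fun a b c d =>
    ⟨Nat.mul 2 a, Nat.mul 2 b, Nat.mul 2 c, Nat.mul 2 d⟩

/-- multiplication by `w` -/
def mulW (p : PM) : PM :=
  PM.casesOn (motive := fun _ => PM) p fun a b c d =>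
    ⟨c, Nat.xor c d, Nat.xor a c, Nat.xor (Nat.xor b (Nat.xor c d)) (Nat.land a c)⟩

/-- multiplication by `w²` -/
def mulW2 (p : PM) : PM :=
  PM.casesOn (motive := fun _ => PM) p fun a b c d =>
    ⟨Nat.xor c a, Nat.xor (Nat.xor d (Nat.xor a b)) (Nat.land c a), a, Nat.xor a b⟩

/-- multiplication by `w m` -/
def fC (p : PM) : PM := mulM (mulW p)

/-- multiplication by `-w² m` -/
def fD (p : PM) : PM := mulM (neg (mulW2 p))

/-- multiplication by `w² - w` -/
def fL (p : PM) : PM := add (mulW2 p) (neg (mulW p))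

end PM

def Vec (m : ℕ) : Type := Nat.rec (motive := fun _ => Type) PM (fun _ ih => List ih) m

def zero (m : ℕ) : Vec m := Nat.rec (motive := fun m => Vec m) PM.zero (fun _ _ => List.nil) m

def addL {α : Type} (f : α → α → α) (p : List α) : List α → List α :=
  List.rec (motive := fun _ => List α → List α) (fun q => q)
    (fun x p ih q => List.casesOn (motive := fun _ => List α) q (x :: p)
      (fun y q => f x y :: ih q)) p

def mapL {α β : Type} (f : α → β) (p : List α) : List β :=
  List.rec (motive := fun _ => List β) [] (fun x _ ih => f x :: ih) p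

def add (m : ℕ) : Vec m → Vec m → Vec m :=
  Nat.rec (motive := fun m => Vec m → Vec m → Vec m) PM.add (fun _ ih => addL ih) m

def mapV (f : PM → PM) (m : ℕ) : Vec m → Vec m :=
  Nat.rec (motive := fun m => Vec m → Vec m) f (fun _ ih => mapL ih) m

def push (m e : ℕ) (v : Vec m) : Vec (m + 1) :=
  Nat.rec (motive := fun _ => List (Vec m)) [v] (fun _ ih => zero m :: ih) e

/-! ### directions as bit masks -/

/-- the direction of the strand `e` -/
def tb (d e : ℕ) : Bool := Nat.beq (Nat.land 1 (Nat.shiftRight d e)) 1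

/-- equality of Booleans -/
def eqB (x y : Bool) : Bool := cond x y (cond y false true)

/-- the directions under the arc from `0` to `e + 1` -/
def rem (e d : ℕ) : ℕ :=
  Nat.lor (Nat.mod (Nat.shiftRight d 1) (Nat.pow 2 e))
    (Nat.shiftLeft (Nat.shiftRight d (Nat.add e 2)) e)

def swp (j d : ℕ) : ℕ :=
  cond (eqB (tb d j) (tb d (Nat.add j 1))) d (Nat.xor d (Nat.shiftLeft 3 j))

def mvL (k : ℕ) : ℕ → ℕ :=
  Nat.rec (motive := fun _ => ℕ → ℕ) (fun d => d) (fun k ih d => ih (swp k d)) k

def mvR (k : ℕ) (d : ℕ) : ℕ := Nat.rec (motive := fun _ => ℕ) d (fun k ih => swp k ih) k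

/-- sum over the admissible entries `e, e+1, ...` (only those `≤ 2m`) of `term` -/
def foldV {m k : ℕ} (d : ℕ) (term : ℕ → Vec m → Vec k) (v : List (Vec m)) : ℕ → Vec k :=
  List.rec (motive := fun _ => ℕ → Vec k) (fun _ => zero k)
    (fun v _ ih e => add k
      (cond (Nat.ble e (Nat.mul 2 m))
        (cond (eqB (tb d (Nat.add e 1)) (tb d 0)) (zero k) (term e v)) (zero k))
      (ih (Nat.succ e))) v

def opG (m : ℕ) : ℕ → ℕ → ℕ → Bool → Vec m → Vec (m + 1) :=
  Nat.rec (motive := fun m => ℕ → ℕ → ℕ → Bool → Vec m → Vec (m + 1))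
    (fun _ _ g _ v => push 0 g v)
    (fun m ih d l g b v => cond (Nat.beq l 0) (push (m + 1) g v)
      (foldV (m := m) (k := m + 2) d (fun e w =>
        cond (Nat.ble (Nat.add e 2) l)
          (push (m + 1) e (ih (rem e d) (Nat.sub l 2) g b w))
        (cond (Nat.ble (Nat.add l g) (Nat.add e 1))
          (push (m + 1) (Nat.add e 2) (ih (rem e d) (Nat.sub l 1) g b w))
        (cond (eqB (tb d 0) b)
          (add (m + 2)
            (mapV PM.mulW (m + 2) (push (m + 1) (Nat.add e 1)
              (ih (rem e d) (Nat.sub l 1) (Nat.sub g 1) b w)))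
            (mapV PM.fD (m + 2) (push (m + 1) (Nat.add l g)
              (ih (rem e d) (Nat.sub l 1) (Nat.sub (Nat.add e 1) l) b w))))
          (add (m + 2)
            (mapV PM.mulW2 (m + 2) (push (m + 1) (Nat.add e 1)
              (ih (rem e d) (Nat.sub l 1) (Nat.sub g 1) b w)))
            (mapV PM.fC (m + 2) (push (m + 1) (Nat.sub l 1)
              (ih (rem e d) e (Nat.sub (Nat.add l g) (Nat.add e 2)) b w)))))))
        v 0)) m

/-- apply `pos (k-1), ..., pos 0` -/
def seqL {α : Type} (z : ℕ → ℕ → α → α) (k : ℕ) : ℕ → α → α :=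
  Nat.rec (motive := fun _ => ℕ → α → α) (fun _ v => v)
    (fun k ih d v => ih (swp k d) (z d k v)) k

/-- apply `neg 0, ..., neg (k-1)` -/
def seqR {α : Type} (z : ℕ → ℕ → α → α) (k : ℕ) (d : ℕ) (v : α) : α :=
  Nat.rec (motive := fun _ => α) v (fun k ih => z (mvR k d) k ih) k

/-- `c = true`: positive piece, `c = false`: negative piece -/
def opZ (m : ℕ) : Bool → ℕ → ℕ → Vec m → Vec m :=
  Nat.rec (motive := fun m => Bool → ℕ → ℕ → Vec m → Vec m)
    (fun _ _ _ v => v)
    (fun m ih c d j v => foldV (m := m) (k := m + 1) d (fun e w =>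
      cond (Nat.beq j 0)
        (cond (Nat.beq e 0) (push m 0 w)
          (cond c
            (cond (eqB (tb d 1) (tb d 0))
              (add (m + 1) (mapV PM.mulW2 (m + 1) (opG m (rem e d) 1 (Nat.sub e 1) (tb d 0) w))
                (mapV PM.fC (m + 1) (push m e w)))
              (add (m + 1) (mapV PM.mulW (m + 1) (opG m (rem e d) 1 (Nat.sub e 1) (tb d 0) w))
                (mapV PM.fD (m + 1) (push m 0 (seqR (ih false) (Nat.sub e 1) (rem e d) w)))))
            (opG m (rem e d) 1 (Nat.sub e 1) (tb d 0) w)))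
      (cond (Nat.ble (Nat.add j 1) e) (push m e (ih c (rem e d) (Nat.sub j 1) w))
      (cond (Nat.ble (Nat.add e 2) j) (push m e (ih c (rem e d) (Nat.sub j 2) w))
      (cond (Nat.beq j (Nat.add e 1))
        (cond c
          (cond (eqB (tb d (Nat.add e 2)) (tb d 0))
            (add (m + 1) (mapV PM.mulW (m + 1) (push m (Nat.add e 1) w))
              (mapV PM.fD (m + 1) (opG m (mvL e (rem e d)) (Nat.add e 1) 0 (tb d 0)
                (seqL (ih true) e (rem e d) w))))
            (add (m + 1) (mapV PM.mulW2 (m + 1) (push m (Nat.add e 1) w))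
              (mapV PM.fC (m + 1) (push m e w))))
          (push m (Nat.add e 1) w))
        (cond c (push m (Nat.sub e 1) w)
          (cond (eqB (tb d e) (tb d 0))
            (add (m + 1) (mapV PM.mulW2 (m + 1) (push m (Nat.sub e 1) w))
              (mapV PM.fC (m + 1) (opG m (mvL (Nat.sub e 1) (rem e d)) e 0
                (cond (tb d 0) false true) (seqL (ih true) (Nat.sub e 1) (rem e d) w))))
            (add (m + 1) (mapV PM.mulW (m + 1) (push m (Nat.sub e 1) w))
              (mapV PM.fD (m + 1) (push m e w))))))))) v 0) m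

/-- `m` times the effect of `death j` -/
def opD (m : ℕ) : ℕ → ℕ → Vec (m + 1) → Vec m :=
  Nat.rec (motive := fun m => ℕ → ℕ → Vec (m + 1) → Vec m)
    (fun _ _ v => List.casesOn (motive := fun _ => PM) (v : List PM) PM.zero (fun w _ => PM.fL w))
    (fun m ih d j v => foldV (m := m + 1) (k := m + 1) d (fun e w =>
      cond (Nat.beq j 0)
        (cond (Nat.beq e 0) (mapV PM.fL (m + 1) w)
          (mapV PM.mulM (m + 1) (seqR (opZ (m + 1) false) (Nat.sub e 1) (rem e d) w)))
      (cond (Nat.ble (Nat.add j 1) e) (push m (Nat.sub e 2) (ih (rem e d) (Nat.sub j 1) w))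
      (cond (Nat.ble (Nat.add e 2) j) (push m e (ih (rem e d) (Nat.sub j 2) w))
      (cond (Nat.beq j (Nat.add e 1))
        (mapV PM.mulM (m + 1) (seqL (opZ (m + 1) true) e (rem e d) w))
        (mapV PM.mulM (m + 1) (seqL (opZ (m + 1) true) (Nat.sub e 1) (rem e d) w)))))) v 0) m

/-! ### running a word -/

/-- directions after a maximum at `i` -/
def insB (i : ℕ) (b : Bool) (d : ℕ) : ℕ :=
  Nat.lor (Nat.mod d (Nat.pow 2 i)) (Nat.lor (Nat.shiftLeft (cond b 1 2) i)
    (Nat.shiftLeft (Nat.shiftRight d i) (Nat.add i 2)))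

/-- directions after a minimum at `i` -/
def delB (i d : ℕ) : ℕ :=
  Nat.lor (Nat.mod d (Nat.pow 2 i)) (Nat.shiftLeft (Nat.shiftRight d (Nat.add i 2)) i)

/-- a state: number of arcs, directions, vector -/
structure St where
  m : ℕ
  d : ℕ
  v : Vec m

end

end Pool.Agent.Helper454.Wh
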