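import Pool.Agent.Helper454.Wh.Compute

set_option autoImplicit false

namespace Pool.Agent.Helper454.Wh

open LaurentPolynomial OPiece

noncomputable section

/-- the ring `ℤ/4[w]`, `w² + w + 1 = 0` -/
abbrev Q4 : Type := QuadraticAlgebra (ZMod 4) (-1) (-1)

def w4 : Q4 := ⟨0, 1⟩

theorem w4_sq : w4 * w4 = ⟨-1, -1⟩ := QuadraticAlgebra.omega_mul_omega_eq_mk

theorem w4_quad : w4 * w4 + w4 + 1 = 0 := by
  rw [w4_sq]
  rfl

theorem w4_cube : w4 * (w4 * w4) = 1 := by
  linear_combination (w4 - 1) * w4_quad

theorem four_Q4 : (4 : Q4) = 0 := by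
  have h : (4 : ZMod 4) = 0 := by decide
  have : (4 : Q4) = algebraMap (ZMod 4) Q4 4 := by rw [map_ofNat]
  rw [this, h, map_zero]

def uw : Q4ˣ := ⟨w4, w4 * w4, w4_cube, by rw [mul_comm]; exact w4_cube⟩

def psi : LaurentPolynomial ℤ →+* Q4 := LaurentPolynomial.eval₂ (Int.castRingHom Q4) uw

def phi : Rlm →+* LaurentPolynomial Q4 := AddMonoidAlgebra.mapRingHom ℤ psi

theorem phi_coeff (x : Rlm) (k : ℤ) : (phi x).coeff k = psi (x.coeff k) :=
  AddMonoidAlgebra.coeff_mapRingHom _ _ _

theorem phi_C (x : LaurentPolynomial ℤ) : phi (C x) = C (psi x) := by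
  ext k : 1
  rw [phi_coeff, C_apply, C_apply]
  split_ifs
  · rfl
  · rw [map_zero]

theorem phi_T (n : ℤ) : phi (LaurentPolynomial.T n) = LaurentPolynomial.T n := by
  ext k : 1
  rw [phi_coeff, T_apply, T_apply]
  split_ifs
  · rw [map_one]
  · rw [map_zero]

theorem phi_l : phi (lPow 1) = C w4 := by
  rw [lPow, phi_C]
  congr 1
  rw [psi, eval₂_T, zpow_one]
  rfl

theorem phi_l' : phi (lPow (-1)) = C w4 * C w4 := by
  rw [lPow, phi_C, ← map_mul]
  congr 1
  rw [psi, eval₂_T, zpow_neg, zpow_one]
  rfl

theorem phi_m : phi (mPow 1) = LaurentPolynomial.T 1 := by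
  rw [mPow, phi_T]

theorem good_w : Good (C w4 : LaurentPolynomial Q4) where
  four := by
    have : (4 : LaurentPolynomial Q4) = C 4 := by rw [map_ofNat]
    rw [this, four_Q4, map_zero]
  quad := by
    have := congrArg (C : Q4 →+* LaurentPolynomial Q4) w4_quad
    simpa only [map_add, map_mul, map_one, map_zero] using this

theorem rules_phi {Λ : OWord → Rlm} (h : HomflyRules (lPow 1) (lPow (-1)) (mPow 1) Λ) :
    HomflyRules (C w4 : LaurentPolynomial Q4) (C w4 * C w4) (LaurentPolynomial.T 1)
      (fun D => phi (Λ D)) where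
  isotopy D E hDE := congrArg phi (h.isotopy D E hDE)
  parallel x i y h1 h2 := by
    have := congrArg phi (h.parallel x i y h1 h2)
    simp only [smul_eq_mul, map_sub, map_mul, phi_l, phi_l', phi_m] at this ⊢
    exact this
  antiparallel x i y h1 h2 := by
    have := congrArg phi (h.antiparallel x i y h1 h2)
    simp only [smul_eq_mul, map_sub, map_mul, phi_l, phi_l', phi_m] at this ⊢
    exact this

/-! ### the other orientation of the circle -/

theorem circle_false {R : Type} [CommRing R] {M : Type} [AddCommGroup M] [Module R M]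
    {l l' m : R} {Λ : OWord → M} (hΛ : HomflyRules l l' m Λ) :
    Λ [birth 0 false, death 0] = Λ ocircle := by
  have h0 : extd Λ ∈ S R Λ 0 noD := Submodule.subset_span ⟨[], rfl, rfl⟩
  have hT := T_of_mem h0
  have e1 := curlBP hΛ hT (i := 0) true (le_refl 0)
  have e2 := curlDP hΛ (T_birth hT (i := 0) true (le_refl 0)) (i := 0) (by omega)
  rw [e1] at e2
  have e3 := congrFun e2 []
  have e4 : extd Λ [birth 0 false, death 0] = extd Λ ocircle := e3
  rw [extd, extd, if_pos, if_pos] at e4
  · exact e4
  · simp [OClosed, below, OPiece.below, insD, ocircle]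
  · simp [OClosed, below, OPiece.below, insD]

/-! ### coefficients -/

theorem T_mul_coeff' {R : Type} [CommSemiring R] (i k : ℤ) (f : LaurentPolynomial R) :
    (LaurentPolynomial.T i * f).coeff k = f.coeff (k - i) := by
  rw [LaurentPolynomial.T, AddMonoidAlgebra.coeff_single_mul_apply, one_mul, neg_add_eq_sub]

theorem C_mul_coeff' {R : Type} [CommSemiring R] (c : R) (k : ℤ) (f : LaurentPolynomial R) :
    (C c * f).coeff k = c * f.coeff k := by
  rw [← single_eq_C, AddMonoidAlgebra.coeff_single_mul_apply, neg_zero, zero_add]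

theorem coeff_add' {R : Type} [CommSemiring R] (k : ℤ) (f g : LaurentPolynomial R) :
    (f + g).coeff k = f.coeff k + g.coeff k := by
  rw [AddMonoidAlgebra.coeff_add, Finsupp.add_apply]

theorem ev2_coeff_neg {R : Type} [CommRing R] (x : ℕ) (n : ℤ) (hn : n < 0) :
    (ev2 (LaurentPolynomial.T 1 : LaurentPolynomial R) x).coeff n = 0 := by
  induction x using Nat.binaryRec generalizing n with
  | zero => rw [ev2_zero]; rfl
  | bit b x ih =>
    rw [ev2_bit, coeff_add', T_mul_coeff', ih _ (by omega), add_zero]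
    cases b
    · rfl
    · have : (1 : LaurentPolynomial R) = C 1 := (map_one C).symm
      simp only [if_true]
      rw [this, C_apply, if_neg hn.ne]

theorem ev2_coeff {R : Type} [CommRing R] (x n : ℕ) :
    (ev2 (LaurentPolynomial.T 1 : LaurentPolynomial R) x).coeff (n : ℤ) =
      if x.testBit n then 1 else 0 := by
  induction x using Nat.binaryRec generalizing n with
  | zero => rw [ev2_zero]; simp
  | bit b x ih =>
    rw [ev2_bit, coeff_add', T_mul_coeff']
    cases n with
    | zero =>
      rw [ev2_coeff_neg _ _ (by norm_num), add_zero, Nat.testBit_bit_zero]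
      cases b
      · simp
      · have : (1 : LaurentPolynomial R) = C 1 := (map_one C).symm
        simp only [if_true]
        rw [this, C_apply, if_pos (by norm_num)]
    | succ n =>
      have e1 : ((n + 1 : ℕ) : ℤ) - 1 = (n : ℤ) := by push_cast; ring
      rw [e1, ih, Nat.testBit_bit_succ]
      cases b
      · simp
      · have : (1 : LaurentPolynomial R) = C 1 := (map_one C).symm
        simp only [if_true]
        rw [this, C_apply, if_neg (by omega), zero_add]

theorem evP_coeff (p : PM) (n : ℕ) :
    (evP (C w4 : LaurentPolynomial Q4) (LaurentPolynomial.T 1) p).coeff (n : ℤ) =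
      ((if p.a.testBit n then 1 else 0) + 2 * (if p.b.testBit n then 1 else 0)) +
      w4 * ((if p.c.testBit n then 1 else 0) + 2 * (if p.d.testBit n then 1 else 0)) := by
  have h2 : (2 : LaurentPolynomial Q4) = C 2 := by rw [map_ofNat]
  rw [evP, coeff_add', C_mul_coeff', coeff_add', coeff_add', h2, C_mul_coeff', C_mul_coeff',
    ev2_coeff, ev2_coeff, ev2_coeff, ev2_coeff]

theorem OClosed_W : OClosed (W0 ++ [death 0]) := by
  unfold OClosed
  decide +kernel

theorem value_W {Λ : OWord → Rlm} (h : IsHomfly Λ) :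
    LaurentPolynomial.T 6 * phi (Λ W) = evP (C w4 : LaurentPolynomial Q4) (LaurentPolynomial.T 1)
      ⟨4542464, 18611191808, 1414600000, 21747536896⟩ := by
  have h1 := value (rules_phi h.1) good_w W0 2 _ ok0 run0 (by decide) (by decide) OClosed_W
  have e1 : tb 2 0 = false := by decide
  have e2 : W0 ++ [death 0] = W := by decide
  have e3 : dc W0 = 6 := by decide
  rw [e1, e2, e3, circle_false (rules_phi h.1), h.2, map_one, smul_eq_mul, smul_eq_mul, mul_one,
    T_pow] at h1
  simpa using h1

theorem coeff_W {Λ : OWord → Rlm} (h : IsHomfly Λ) : (Λ W).coeff 28 ≠ 0 := by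
  intro h0
  have h1 := congrArg (fun f => f.coeff 34) (value_W h)
  have h2 : (LaurentPolynomial.T 6 * phi (Λ W)).coeff 34 = psi ((Λ W).coeff 28) := by
    rw [T_mul_coeff', phi_coeff]
    norm_num
  have h3 := evP_coeff ⟨4542464, 18611191808, 1414600000, 21747536896⟩ 34
  have h4 : psi ((Λ W).coeff 28) = _ := h2.symm.trans (h1.trans h3)
  rw [h0, map_zero] at h4
  have t1 : Nat.testBit 4542464 34 = false := by decide
  have t2 : Nat.testBit 18611191808 34 = true := by decide
  have t3 : Nat.testBit 1414600000 34 = false := by decide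
  have t4 : Nat.testBit 21747536896 34 = true := by decide
  simp only [t1, t2, t3, t4, if_true, Bool.false_eq_true, if_false, zero_add, mul_one] at h4
  exact absurd h4 (by decide)

end

end Pool.Agent.Helper454.Wh
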