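import Pool.Agent.Helper454.Kauf.Final
import Pool.Agent.Helper454.Kauf.Exist10
import Pool.Agent.Helper454.Wh.Words

set_option autoImplicit false

namespace Pool.Agent.Helper454.Wh

open LaurentPolynomial
open Pool.Agent.Helper454.Kauf hiding knotK
open Pool.Agent.Helper454.Kauf.Piece

noncomputable section

/-! ### the Kauffman polynomial of the knot -/

def l1 : List (Bool × ℕ) := [(true, 1), (true, 1)]

def l2 : List (Bool × ℕ) :=
  ([4, -3, 4, 5, -3, 5, 2, 4, 4, -3, -2, -2, -3, -3, -2] : List ℤ).map toZ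

def l3 : List (Bool × ℕ) := ([3, -2] : List ℤ).map toZ

def kstart : Kauf.Vec 3 := Kauf.opG 2 4 0 (runZ 2 l1 (Kauf.opG 1 2 0
  (Kauf.opG 0 0 0 ([(0, [1])] : Poly))))

def kfinal : Kauf.Vec 1 := Kauf.opD 1 2 (runZ 2 l3 (Kauf.opD 2 0 (runZ 3 l2 kstart)))

def kfinalL : List (List (ℤ × List ℤ)) := kfinal

def kexpected : List (ℤ × List ℤ) :=
  [(-7, [0, 0, 0, 0, 1, 0, -3, 0, 1]), (-6, [0, 0, 0, -1, 0, 7, 0, -12, 0, 4]),
    (-5, [0, 0, 0, 0, 0, 0, 3, 0, -7, 0, 1, 0, 1]),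
    (-4, [0, 0, 0, -2, 0, 12, 0, -28, 0, 26, 0, -12, 0, 3]),
    (-3, [0, 0, -1, 0, 4, 0, -17, 0, 14, 0, 3, 0, -5, 0, 2]),
    (-2, [0, 0, 0, 0, 0, -7, 0, 12, 0, 2, 0, -7, 0, 4]),
    (-1, [0, 0, 1, 0, 7, 0, -44, 0, 79, 0, -61, 0, 23, 0, -2]),
    (0, [0, 0, 0, 0, 0, -21, 0, 73, 0, -85, 0, 41, 0, -5]),
    (1, [0, 0, 1, 0, 1, 0, 1, 0, -8, 0, -2, 0, 9, 0, -2]),
    (2, [0, 0, 0, -1, 0, 2, 0, -6, 0, -5, 0, 12, 0, -3]),
    (3, [0, 0, 0, 0, 0, 0, 12, 0, -50, 0, 54, 0, -19, 0, 2]),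
    (4, [0, 0, 0, 0, 0, 11, 0, -51, 0, 60, 0, -24, 0, 3]),
    (5, [0, 0, 0, 0, 1, 0, -10, 0, 15, 0, -7, 0, 1])]

theorem kfinal_eq : kfinalL = [kexpected] := by decide +kernel

section
variable {M : Type} [AddCommGroup M] [Module Raz M] {Λ : Word → M} (hΛ : KauffmanRules Λ)
include hΛ

theorem sem_kstart : Kauf.sem Λ 3 kstart = Kauf.ap (Kauf.extd Λ)
    ([birth 0, birth 2] ++ l1.map crZ ++ [birth 4]) := by
  rw [kstart, Kauf.sem_opG hΛ 2 4 0 _ (by omega), sem_runZ hΛ 2 _ _ (by decide),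
    Kauf.sem_opG hΛ 1 2 0 _ (by omega), Kauf.sem_opG hΛ 0 0 0 _ (by omega)]
  have e : Kauf.sem Λ 0 ([(0, [1])] : Poly) = Kauf.extd Λ := by
    show evalP [(0, [1])] • Kauf.extd Λ = Kauf.extd Λ
    simp [evalP, evalZ]
  rw [e]
  rfl

theorem sem_kfinal : Kauf.sem Λ 1 kfinal = zVar • zVar • Kauf.ap (Kauf.extd Λ)
    ([birth 0, birth 2] ++ l1.map crZ ++ [birth 4] ++ l2.map crZ ++ [death 0] ++ l3.map crZ ++
      [death 2]) := by
  rw [kfinal, Kauf.sem_opD hΛ 0 2 _ (by omega), sem_runZ hΛ 2 _ _ (by decide),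
    Kauf.sem_opD hΛ 1 0 _ (by omega), sem_runZ hΛ 3 _ _ (by decide), sem_kstart hΛ]
  rfl

end

/-- the value of the diagram times `z^2` -/
def kpolyZ : Raz := evalP kexpected

/-- the value of the diagram -/
def kpoly : Raz := C (T (-2)) * kpolyZ

theorem zpow2 : C (T (-2)) * zVar * zVar = (1 : Raz) := by
  rw [zVar, ← map_mul, ← map_mul, ← T_add, ← T_add]
  simp

theorem closed_KW : Closed KW := by decide +kernel

theorem components_KW : components KW = 1 := by decide +kernel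

theorem isKnot_KW : IsKnot KW := ⟨closed_KW, components_KW⟩

theorem value_KW {M : Type} [AddCommGroup M] [Module Raz M] (Λ : Word → M)
    (hΛ : KauffmanRules Λ) : Λ KW = kpoly • Λ circle := by
  have h1 := sem_kfinal hΛ
  have h0 : kfinal = ((kexpected : Poly) :: ([] : List (Kauf.Vec 0)) : List (Kauf.Vec 0)) :=
    kfinal_eq
  rw [h0, Kauf.sem_one hΛ] at h1
  have h2 := congrFun h1 [death 0]
  have e1 : (evalP kexpected • Kauf.st (Kauf.extd Λ) (birth 0)) [death 0] =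
      kpolyZ • Λ circle := by
    show kpolyZ • Kauf.extd Λ circle = _
    rw [Kauf.extd, if_pos (by decide)]
  have e2 : (zVar • zVar • Kauf.ap (Kauf.extd Λ)
    ([birth 0, birth 2] ++ l1.map crZ ++ [birth 4] ++ l2.map crZ ++ [death 0] ++ l3.map crZ ++
      [death 2])) [death 0] = zVar • zVar • Λ KW := by
    show zVar • zVar • Kauf.extd Λ (([birth 0, birth 2] ++ l1.map crZ ++ [birth 4] ++
      l2.map crZ ++ [death 0] ++ l3.map crZ ++ [death 2]) ++ [death 0]) = _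
    have e3 : ([birth 0, birth 2] ++ l1.map crZ ++ [birth 4] ++
      l2.map crZ ++ [death 0] ++ l3.map crZ ++ [death 2]) ++ [death 0] = KW := by
      decide +kernel
    rw [e3, Kauf.extd, if_pos closed_KW]
  rw [e1, e2] at h2
  rw [kpoly, mul_smul, h2, smul_smul, smul_smul, zpow2, one_smul]

/-! ### the writhe -/

theorem hasWrithe_KW : HasWrithe KW (-5) :=
  wr_sound KW [] [true, true, false] (-5) (by decide +kernel)

theorem wrAll_KW : ∀ t ∈ wrAll [] KW, t = -5 := by decide +kernel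

theorem writhe_unique_KW (t : ℤ) (h : HasWrithe KW t) : t = -5 :=
  wrAll_KW t (wrAll_complete _ _ _ h)

/-! ### the degree -/

theorem evalZ_coeff_big (x : ZP) (n : ℕ) (h : x.length ≤ n) : (evalZ x).coeff (n : ℤ) = 0 := by
  rw [evalZ_coeff, List.getD_eq_default _ _ h]

theorem evalP_coeff_big (p : Poly) (n : ℕ) (h : ∀ t ∈ p, t.2.length ≤ n) (j : ℤ) :
    ((evalP p).coeff j).coeff (n : ℤ) = 0 := by
  induction p with
  | nil => rfl
  | cons t p ih =>
    obtain ⟨i, x⟩ := t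
    rw [evalP, AddMonoidAlgebra.coeff_add, Finsupp.add_apply, coeff_CT,
      AddMonoidAlgebra.coeff_add, Finsupp.add_apply,
      ih (fun t ht => h t (List.mem_cons_of_mem _ ht)), add_zero]
    split_ifs
    · exact evalZ_coeff_big x n (h (i, x) List.mem_cons_self)
    · rfl

/-- the Kauffman polynomial of the knot -/
def FK : Raz := normalised (-5) kpoly

theorem FK_coeff (j k : ℤ) :
    (FK.coeff j).coeff k = ((evalP kexpected).coeff (j - 5)).coeff (k + 2) := by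
  rw [FK, normalised, aPow, T_mul_coeff, kpoly, C_mul_coeff, T_mul_coeff, kpolyZ]
  norm_num

theorem kexpected_three : (evalP kexpected).coeff (-3) =
    evalZ [0, 0, -1, 0, 4, 0, -17, 0, 14, 0, 3, 0, -5, 0, 2] := by
  have e : kexpected = (kexpected.take 4 ++
      [(-3, [0, 0, -1, 0, 4, 0, -17, 0, 14, 0, 3, 0, -5, 0, 2])])
      ++ kexpected.drop 5 := by decide +kernel
  rw [e, evalP_append, AddMonoidAlgebra.coeff_add, Finsupp.add_apply,
    evalP_coeff_eq_zero (kexpected.drop 5) (-3) (by decide), add_zero,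
    evalP_coeff_last _ _ _ (by decide)]

theorem FK_coeff_top : (FK.coeff 2).coeff 12 = 2 := by
  rw [FK_coeff]
  norm_num
  rw [kexpected_three]
  exact evalZ_coeff [0, 0, -1, 0, 4, 0, -17, 0, 14, 0, 3, 0, -5, 0, 2] 14

theorem isGreatest_FK : IsGreatest (zExponents FK) 12 := by
  constructor
  · refine ⟨2, ?_⟩
    rw [FK_coeff_top]
    norm_num
  · rintro k ⟨j, hj⟩
    by_contra hlt
    apply hj
    rw [FK_coeff]
    obtain ⟨n, hn⟩ : ∃ n : ℕ, k + 2 = (n : ℤ) := ⟨(k + 2).toNat, by omega⟩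
    rw [hn]
    refine evalP_coeff_big _ _ (fun t ht => ?_) _
    have h15 : ∀ t ∈ kexpected, t.2.length ≤ 15 := by decide
    have := h15 t ht
    omega

/-! ### the knot is not trivial -/

theorem curl_power {M : Type} [AddCommGroup M] [Module Raz M] {Λ : Word → M}
    (hΛ : KauffmanRules Λ) {D E : Word} (h : Isotopic D E) :
    ∃ n : ℤ, Λ D = aPow n • Λ E := by
  induction h with
  | rel D E h =>
    obtain ⟨x, l, r, y, h, h1, h2⟩ := h
    rcases h with h | h
    · exact ⟨0, by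
        rw [hΛ.regular _ _ (Relation.EqvGen.rel _ _ (RegStep.mk x l r y h h1 h2)), aPow, T_zero,
          one_smul]⟩
    · cases h with
      | birthPos i => exact ⟨-1, hΛ.birthPos x i y h2⟩
      | birthNeg i => exact ⟨1, hΛ.birthNeg x i y h2⟩
      | deathPos i => exact ⟨-1, hΛ.deathPos x i y h2⟩
      | deathNeg i => exact ⟨1, hΛ.deathNeg x i y h2⟩
  | refl D => exact ⟨0, by rw [aPow, T_zero, one_smul]⟩
  | symm D E _ ih =>
    obtain ⟨n, hn⟩ := ih
    refine ⟨-n, ?_⟩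
    rw [hn, smul_smul, aPow, aPow, ← T_add, neg_add_cancel, T_zero, one_smul]
  | trans D E F _ _ ih1 ih2 =>
    obtain ⟨n, hn⟩ := ih1
    obtain ⟨k, hk⟩ := ih2
    refine ⟨n + k, ?_⟩
    rw [hn, hk, smul_smul, aPow, aPow, aPow, T_add]

theorem nontrivial_KW : ¬ Isotopic KW circle := by
  intro h
  obtain ⟨n, hn⟩ := curl_power Ex.Lam_rules h
  rw [value_KW _ Ex.Lam_rules, Ex.Lam_circle, smul_eq_mul, smul_eq_mul, mul_one, mul_one] at hn
  have h1 := FK_coeff_top
  rw [FK, normalised, hn, aPow, aPow, ← T_add, T_apply] at h1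
  split_ifs at h1
  · have e : (1 : LaurentPolynomial ℤ) = C 1 := (map_one C).symm
    rw [e, C_apply] at h1
    norm_num at h1
  · exact absurd h1 (by
      intro h2
      have h3 : (0 : ℤ) = 2 := h2
      omega)

end

end Pool.Agent.Helper454.Wh
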