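import Pool.Agent.Helper454.Wh.Calc

set_option autoImplicit false

namespace Pool.Agent.Helper454.Wh

open OPiece

noncomputable section

set_option linter.unusedSectionVars false
set_option linter.unreachableTactic false
set_option linter.unusedTactic false

/-- directions after the strand `s` has moved to `s + k` -/
def movR (s k : ℕ) (d : ℕ → Bool) : ℕ → Bool := fun q =>
  if q < s then d q else if q < s + k then d (q + 1) else if q = s + k then d s else d q

/-- directions after the strand `k` has moved to `0` -/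
def movL (k : ℕ) (d : ℕ → Bool) : ℕ → Bool := fun q =>
  if q = 0 then d k else if q ≤ k then d (q - 1) else d q

/-- directions after an arc from `l` to `l + g + 1` has been added -/
def gD (l g : ℕ) (b : Bool) (d : ℕ → Bool) : ℕ → Bool := fun q =>
  if q < l then d q else if q = l then b else if q ≤ l + g then d (q - 1) else
    if q = l + g + 1 then !b else d (q - 2)

theorem movR_zero (s : ℕ) (d : ℕ → Bool) : movR s 0 d = d := by
  funext q
  simp only [movR]
  split_ifs <;> first | rfl | (exfalso; omega) | (congr 1; omega)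

theorem movR_succ (s k : ℕ) (d : ℕ → Bool) : swpD (s + k) (movR s k d) = movR s (k + 1) d := by
  funext q
  simp only [movR, swpD]
  split_ifs <;> first | rfl | (exfalso; omega) | (congr 1; omega)

theorem movL_zero (d : ℕ → Bool) : movL 0 d = d := by
  funext q
  simp only [movL]
  split_ifs <;> first | rfl | (exfalso; omega) | (congr 1; omega)

theorem movL_succ (k : ℕ) (d : ℕ → Bool) : movL k (swpD k d) = movL (k + 1) d := by
  funext q
  simp only [movL, swpD]
  split_ifs <;> first | rfl | (exfalso; omega) | (congr 1; omega)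

theorem gD_zero (l : ℕ) (b : Bool) (d : ℕ → Bool) : gD l 0 b d = insD l b d := by
  funext q
  simp only [gD, insD]
  split_ifs <;> first | rfl | (exfalso; omega) | (congr 1; omega)

theorem gD_succ (l g : ℕ) (b : Bool) (d : ℕ → Bool) :
    swpD (l + 1 + g) (gD l g b d) = gD l (g + 1) b d := by
  funext q
  simp only [gD, swpD]
  split_ifs <;> first | rfl | (exfalso; omega) | (congr 1; omega)

theorem gD_lt {l g q : ℕ} (b : Bool) (d : ℕ → Bool) (h : q < l) : gD l g b d q = d q := by
  simp only [gD]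
  split_ifs <;> first | rfl | (exfalso; omega)

theorem gD_left (l g : ℕ) (b : Bool) (d : ℕ → Bool) : gD l g b d l = b := by
  simp only [gD]
  split_ifs <;> first | rfl | (exfalso; omega)

theorem gD_mid {l g q : ℕ} (b : Bool) (d : ℕ → Bool) (h : l ≤ q) (h' : q < l + g) :
    gD l g b d (q + 1) = d q := by
  simp only [gD]
  split_ifs <;> first | rfl | (exfalso; omega)

theorem gD_right (l g : ℕ) (b : Bool) (d : ℕ → Bool) : gD l g b d (l + g + 1) = !b := by
  simp only [gD]
  split_ifs <;> first | rfl | (exfalso; omega)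

theorem gD_gt {l g q : ℕ} (b : Bool) (d : ℕ → Bool) (h : l + g ≤ q) :
    gD l g b d (q + 2) = d q := by
  simp only [gD]
  split_ifs <;> first | rfl | (exfalso; omega)

section
variable {R : Type} [CommRing R] {M : Type} [AddCommGroup M] [Module R M]

/-- `neg s, neg (s+1), ..., neg (s+k-1)` -/
def Ng (s : ℕ) : ℕ → (OWord → M) → (OWord → M)
  | 0, f => f
  | k + 1, f => st (Ng s k f) (neg (s + k))

/-- the arc from `l` to `l + g + 1` running over everything -/
def G (l g : ℕ) (b : Bool) (f : OWord → M) : OWord → M := Ng (l + 1) g (st f (birth l b))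

/-- `pos (k-1), ..., pos 0` -/
def Lo : ℕ → (OWord → M) → (OWord → M)
  | 0, f => f
  | k + 1, f => Lo k (st f (pos k))

theorem Ng_zero (s : ℕ) (f : OWord → M) : Ng s 0 f = f := rfl
theorem Ng_succ (s k : ℕ) (f : OWord → M) : Ng s (k + 1) f = st (Ng s k f) (neg (s + k)) := rfl
theorem Lo_zero (f : OWord → M) : Lo 0 f = f := rfl
theorem Lo_succ (k : ℕ) (f : OWord → M) : Lo (k + 1) f = Lo k (st f (pos k)) := rfl
theorem G_zero (l : ℕ) (b : Bool) (f : OWord → M) : G l 0 b f = st f (birth l b) := rfl
theorem G_succ (l g : ℕ) (b : Bool) (f : OWord → M) :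
    G l (g + 1) b f = st (G l g b f) (neg (l + 1 + g)) := rfl

theorem Ng_head (s k : ℕ) (f : OWord → M) : Ng s (k + 1) f = Ng (s + 1) k (st f (neg s)) := by
  induction k with
  | zero => rfl
  | succ k ih =>
    rw [Ng_succ, ih, Ng_succ]
    congr 2
    omega

theorem Ng_add (s k m : ℕ) (f : OWord → M) : Ng s (k + m) f = Ng (s + k) m (Ng s k f) := by
  induction m with
  | zero => rfl
  | succ m ih =>
    rw [← Nat.add_assoc, Ng_succ, ih, Ng_succ]
    congr 2
    omega

theorem G_add (l g m : ℕ) (b : Bool) (f : OWord → M) :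
    G l (g + m) b f = Ng (l + 1 + g) m (G l g b f) := Ng_add _ _ _ _

theorem Ng_lin (s k : ℕ) (f g : OWord → M) : Ng s k (f + g) = Ng s k f + Ng s k g := by
  induction k with
  | zero => rfl
  | succ k ih => rw [Ng_succ, ih, st_add]; rfl

theorem Ng_smul (s k : ℕ) (c : R) (f : OWord → M) : Ng s k (c • f) = c • Ng s k f := by
  induction k with
  | zero => rfl
  | succ k ih => rw [Ng_succ, ih, st_smul]; rfl

theorem Ng_neg (s k : ℕ) (f : OWord → M) : Ng s k (-f) = -Ng s k f := by
  induction k with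
  | zero => rfl
  | succ k ih => rw [Ng_succ, ih, st_neg]; rfl

theorem Ng_sub (s k : ℕ) (f g : OWord → M) : Ng s k (f - g) = Ng s k f - Ng s k g := by
  rw [sub_eq_add_neg, Ng_lin, Ng_neg, ← sub_eq_add_neg]

theorem Ng_zero' (s k : ℕ) : Ng s k (0 : OWord → M) = 0 := by
  induction k with
  | zero => rfl
  | succ k ih => rw [Ng_succ, ih, st_zero]

theorem G_lin (l g : ℕ) (b : Bool) (f h : OWord → M) :
    G l g b (f + h) = G l g b f + G l g b h := Ng_lin _ _ _ _
theorem G_smul (l g : ℕ) (b : Bool) (c : R) (f : OWord → M) : G l g b (c • f) = c • G l g b f :=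
  Ng_smul _ _ _ _
theorem G_neg (l g : ℕ) (b : Bool) (f : OWord → M) : G l g b (-f) = -G l g b f := Ng_neg _ _ _
theorem G_zero' (l g : ℕ) (b : Bool) : G l g b (0 : OWord → M) = 0 := Ng_zero' _ _

theorem Lo_smul (k : ℕ) (c : R) (f : OWord → M) : Lo k (c • f) = c • Lo k f := by
  induction k generalizing f with
  | zero => rfl
  | succ k ih => rw [Lo_succ, st_smul, ih]; rfl

variable {Λ : OWord → M}

theorem Ng_mem {n s k : ℕ} {d : ℕ → Bool} {f : OWord → M} (hf : f ∈ S R Λ n d)
    (h : s + k + 1 ≤ n) : Ng s k f ∈ S R Λ n (movR s k d) := by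
  induction k with
  | zero => rw [movR_zero]; exact hf
  | succ k ih => rw [← movR_succ]; exact neg_mem' (ih (by omega)) (by omega)

theorem G_mem {n l g : ℕ} {d : ℕ → Bool} {f : OWord → M} (b : Bool) (hf : f ∈ S R Λ n d)
    (h : l + g ≤ n) : G l g b f ∈ S R Λ (n + 2) (gD l g b d) := by
  induction g with
  | zero => rw [gD_zero]; exact birth_mem hf b (by omega)
  | succ g ih => rw [← gD_succ]; exact neg_mem' (ih (by omega)) (by omega)

theorem Lo_mem {n k : ℕ} {d : ℕ → Bool} {f : OWord → M} (hf : f ∈ S R Λ n d) (h : k + 1 ≤ n) :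
    Lo k f ∈ S R Λ n (movL k d) := by
  induction k generalizing f d with
  | zero => rw [movL_zero]; exact hf
  | succ k ih => rw [← movL_succ]; exact ih (pos_mem hf (by omega)) (by omega)

theorem T_Ng {n s k : ℕ} {f : OWord → M} (hf : T R Λ n f) (h : s + k + 1 ≤ n) :
    T R Λ n (Ng s k f) := by
  obtain ⟨d, hd⟩ := hf
  exact ⟨_, Ng_mem hd h⟩

theorem T_G {n l g : ℕ} {f : OWord → M} (b : Bool) (hf : T R Λ n f) (h : l + g ≤ n) :
    T R Λ (n + 2) (G l g b f) := by
  obtain ⟨d, hd⟩ := hf
  exact ⟨_, G_mem b hd h⟩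

theorem T_Lo {n k : ℕ} {f : OWord → M} (hf : T R Λ n f) (h : k + 1 ≤ n) :
    T R Λ n (Lo k f) := by
  obtain ⟨d, hd⟩ := hf
  exact ⟨_, Lo_mem hd h⟩

variable {l l' m : R} (hΛ : HomflyRules l l' m Λ)
include hΛ

section TT

variable {n : ℕ} {f : OWord → M} (hf : T R Λ n f)
include hf

/-! ### moving pieces through `Ng` -/

theorem Ng_cr_right (c : Bool) {s k j : ℕ} (h : s + k + 1 ≤ j) (hj : j + 2 ≤ n) :
    st (Ng s k f) (cr c j) = Ng s k (st f (cr c j)) := by
  induction k with
  | zero => rfl
  | succ k ih =>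
    have hm := T_Ng (s := s) (k := k) hf (by omega)
    rw [Ng_succ, Ng_succ, ← cr_false, xx hΛ hm false c (by omega) hj, ih (by omega)]

theorem Ng_cr_left (c : Bool) {s k j : ℕ} (h : j + 2 ≤ s) (hk : s + k + 1 ≤ n) :
    st (Ng s k f) (cr c j) = Ng s k (st f (cr c j)) := by
  induction k with
  | zero => rfl
  | succ k ih =>
    have hm := T_Ng (s := s) (k := k) hf (by omega)
    rw [Ng_succ, Ng_succ, ← cr_false, ← xx hΛ hm c false (by omega) (by omega), ih (by omega)]

theorem Ng_slide (c : Bool) {s k j : ℕ} (h : s ≤ j) (hj : j + 2 ≤ s + k) (hk : s + k + 1 ≤ n) :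
    st (Ng s k f) (cr c j) = Ng s k (st f (cr c (j + 1))) := by
  induction k with
  | zero => omega
  | succ k ih =>
    by_cases hc : j + 2 ≤ s + k
    · have hm := T_Ng (s := s) (k := k) hf (by omega)
      rw [Ng_succ, Ng_succ, ← cr_false, ← xx hΛ hm c false hc (by omega), ih hc (by omega)]
    · -- `j + 1 = s + k`
      obtain ⟨k', rfl⟩ : ∃ k', k = k' + 1 := ⟨k - 1, by omega⟩
      have hj' : j = s + k' := by omega
      subst hj'
      have hm := T_Ng (s := s) (k := k') hf (by omega)
      rw [Ng_succ, Ng_succ, Ng_succ, Ng_succ]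
      rw [show s + (k' + 1) = s + k' + 1 by omega]
      rw [slideX hΛ hm c (by omega)]
      rw [Ng_cr_right hΛ hf c (by omega) (by omega)]

theorem Ng_death_right {s k j : ℕ} (h : s + k + 1 ≤ j) (hj : j + 2 ≤ n) :
    st (Ng s k f) (death j) = Ng s k (st f (death j)) := by
  induction k with
  | zero => rfl
  | succ k ih =>
    have hm := T_Ng (s := s) (k := k) hf (by omega)
    rw [Ng_succ, Ng_succ, ← cr_false, xd hΛ hm false (by omega) hj, ih (by omega)]

theorem Ng_death_left {s k j : ℕ} (h : j ≤ s) (hk : s + 2 + k + 1 ≤ n) :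
    st (Ng (s + 2) k f) (death j) = Ng s k (st f (death j)) := by
  induction k with
  | zero => rfl
  | succ k ih =>
    have hm := T_Ng (s := s + 2) (k := k) hf (by omega)
    rw [Ng_succ, Ng_succ, ← cr_false, ← ih (by omega), ← cr_false,
      dx hΛ hm false (by omega) (by omega)]
    congr 3
    omega

/-- an over strand passes over a death -/
theorem over_death {j : ℕ} (h : j + 3 ≤ n) :
    st (st (st f (neg j)) (neg (j + 1))) (death j) = st f (death (j + 1)) := by
  rw [sd2 hΛ (T_neg hf (by omega)) h, np hΛ hf (by omega)]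

theorem Ng_death_slide {s k j : ℕ} (h : s ≤ j) (hj : j ≤ s + k) (hk : s + k + 3 ≤ n) :
    st (Ng s (k + 2) f) (death j) = Ng s k (st f (death (j + 1))) := by
  induction k with
  | zero =>
    have : j = s := by omega
    subst this
    exact over_death hΛ hf (by omega)
  | succ k ih =>
    by_cases hc : j ≤ s + k
    · have hm := T_Ng (s := s) (k := k + 2) hf (by omega)
      have e1 := dx hΛ hm false hc (by omega)
      rw [cr_false, cr_false, ih hc (by omega)] at e1
      exact e1.symm
    · have hj' : j = s + k + 1 := by omega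
      subst hj'
      rw [show k + 1 + 2 = (k + 1) + 1 + 1 by omega, Ng_succ, Ng_succ]
      have hm := T_Ng (s := s) (k := k + 1) hf (by omega)
      rw [show s + (k + 1) = s + k + 1 by omega, show s + (k + 1 + 1) = s + k + 1 + 1 by omega]
      rw [over_death hΛ hm (by omega), Ng_death_right hΛ hf (by omega) (by omega)]

theorem Ng_birth_right (b : Bool) {s k i : ℕ} (h : s + k + 1 ≤ i) (hl : i ≤ n) :
    st (Ng s k f) (birth i b) = Ng s k (st f (birth i b)) := by
  induction k with
  | zero => rfl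
  | succ k ih =>
    have hm := T_Ng (s := s) (k := k) hf (by omega)
    rw [Ng_succ, Ng_succ, ← cr_false, xb hΛ hm false b (by omega) hl, ih (by omega)]

/-- an over strand at position `i` passes over a birth -/
theorem over_birth (b : Bool) {i : ℕ} (h : i < n) :
    st f (birth i b) = st (st (st f (birth (i + 1) b)) (neg i)) (neg (i + 1)) := by
  rw [← sb1 hΛ hf b h, pn hΛ (T_birth hf b h.le) (by omega)]

theorem Ng_birth_mid (b : Bool) {s k i : ℕ} (h : s ≤ i) (hl : i ≤ s + k) (hk : s + k + 1 ≤ n) :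
    st (Ng s k f) (birth i b) = Ng s (k + 2) (st f (birth (i + 1) b)) := by
  induction k with
  | zero =>
    have : i = s := by omega
    subst this
    exact over_birth hΛ hf b (by omega)
  | succ k ih =>
    have hm := T_Ng (s := s) (k := k) hf (by omega)
    by_cases hc : i ≤ s + k
    · rw [Ng_succ, ← cr_false, ← bx hΛ hm false b hc (by omega), ih hc (by omega)]
      rfl
    · have hl' : i = s + k + 1 := by omega
      subst hl'
      rw [over_birth hΛ (T_Ng hf (by omega)) b (by omega), Ng_succ, ← cr_false,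
        xb hΛ hm false b (by omega) (by omega), Ng_birth_right hΛ hf b (by omega) (by omega)]
      rfl

theorem G_cr_right (c a : Bool) {e i : ℕ} (h : e ≤ i) (hi : i + 2 ≤ n) :
    st (G 0 e a f) (cr c (i + 2)) = G 0 e a (st f (cr c i)) := by
  unfold G
  rw [Ng_cr_right hΛ (T_birth hf a (by omega)) c (by omega) (by omega),
    bx hΛ hf c a (by omega) hi]

theorem G_cr_slide (c a : Bool) {e i : ℕ} (h : i + 2 ≤ e) (he : e ≤ n) :
    st (G 0 e a f) (cr c (i + 1)) = G 0 e a (st f (cr c i)) := by
  unfold G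
  rw [Ng_slide hΛ (T_birth hf a (by omega)) c (by omega) (by omega) (by omega),
    bx hΛ hf c a (by omega) (by omega)]

theorem G_pos_end (a : Bool) {e : ℕ} (he : e + 1 ≤ n) :
    st (G 0 (e + 1) a f) (pos (e + 1)) = G 0 e a f := by
  rw [G_succ, show 0 + 1 + e = e + 1 by omega]
  exact np hΛ (T_G a hf (by omega)) (by omega)

theorem G_neg_next (a : Bool) (e : ℕ) : st (G 0 e a f) (neg (e + 1)) = G 0 (e + 1) a f := by
  rw [G_succ, show 0 + 1 + e = e + 1 by omega]

theorem G_death_slide (a : Bool) {e i : ℕ} (h : i ≤ e) (he : e + 2 ≤ n) :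
    st (G 0 (e + 2) a f) (death (i + 1)) = G 0 e a (st f (death i)) := by
  unfold G
  rw [Ng_death_slide hΛ (T_birth hf a (by omega)) (by omega) (by omega) (by omega),
    bd hΛ hf a (by omega) (by omega)]

theorem G_death_right (a : Bool) {e i : ℕ} (h : e ≤ i) (hi : i + 2 ≤ n) :
    st (G 0 e a f) (death (i + 2)) = G 0 e a (st f (death i)) := by
  unfold G
  rw [Ng_death_right hΛ (T_birth hf a (by omega)) (by omega) (by omega),
    bd hΛ hf a (by omega) (by omega)]

theorem G_neg_first (a : Bool) {e : ℕ} (he : e + 1 ≤ n) :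
    st (G 0 (e + 1) a f) (neg 0) = G 1 e a f := by
  unfold G
  have e1 := Ng_cr_left hΛ (T_neg (T_birth hf (i := 0) a (by omega)) (i := 0 + 1) (by omega))
    false (s := 0 + 1 + 1) (k := e) (j := 0) (by omega) (by omega)
  rw [cr_false] at e1
  rw [Ng_head, e1, sb2 hΛ hf a (by omega), pn hΛ (T_birth hf a (by omega)) (by omega)]

/-! ### exchanging arcs -/

theorem G_far (a b : Bool) {i g e : ℕ} (h : e ≤ i) (hl : i + g ≤ n) :
    G (i + 2) g b (G 0 e a f) = G 0 e a (G i g b f) := by
  induction g with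
  | zero =>
    rw [G_zero, G_zero]
    unfold G
    rw [Ng_birth_right hΛ (T_birth hf a (by omega)) b (by omega) (by omega),
      bb hΛ hf a b (by omega) (by omega)]
  | succ g ih =>
    rw [G_succ, ih (by omega), G_succ]
    rw [show i + 2 + 1 + g = i + 1 + g + 2 by omega, ← cr_false,
      G_cr_right hΛ (T_G b hf (by omega)) false a (by omega) (by omega)]
    rfl

theorem G_nested (a b : Bool) {i g e : ℕ} (h : i + g ≤ e) (he : e ≤ n) :
    G (i + 1) g b (G 0 e a f) = G 0 (e + 2) a (G i g b f) := by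
  induction g with
  | zero =>
    rw [G_zero, G_zero]
    unfold G
    rw [Ng_birth_mid hΛ (T_birth hf a (by omega)) b (s := 0 + 1) (k := e) (i := i + 1) (by omega)
      (by omega) (by omega), bb hΛ hf a b (by omega) (by omega)]
  | succ g ih =>
    have e1 := G_cr_slide hΛ (T_G (l := i) (g := g) b hf (by omega)) false a (e := e + 2)
      (i := i + 1 + g) (by omega) (by omega)
    rw [cr_false, cr_false] at e1
    rw [G_succ (i + 1) g, ih (by omega), G_succ i g, ← e1]
    congr 2
    omega

theorem Lo_neg_right {k j : ℕ} (h : k + 1 ≤ j) (hj : j + 2 ≤ n) (c : Bool) :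
    Lo k (st f (cr c j)) = st (Lo k f) (cr c j) := by
  induction k generalizing f with
  | zero => rfl
  | succ k ih =>
    rw [Lo_succ, Lo_succ, ← cr_true, ← xx hΛ hf true c (by omega) hj,
      ih (T_cr hf true (by omega)) (by omega)]

/-- the arc born at `k` whose left end moves to the left end equals the arc born at the left -/
theorem Lo_birth (b : Bool) {k : ℕ} (h : k ≤ n) : Lo k (st f (birth k b)) = G 0 k b f := by
  induction k with
  | zero => rfl
  | succ k ih =>
    rw [Lo_succ, ← sb2 hΛ hf b (by omega), ← cr_false,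
      Lo_neg_right hΛ (T_birth hf b (by omega)) (by omega) (by omega), ih (by omega), G_succ,
      cr_false, show 0 + 1 + k = k + 1 by omega]

/-- retracting an arc -/
theorem Lo_G (b : Bool) {i g : ℕ} (h : i + g ≤ n) :
    Lo (i + g + 1) (G i g b f) = G 0 i (!b) f := by
  induction g with
  | zero =>
    rw [G_zero, Lo_succ, curlBP hΛ hf b (by omega), Lo_birth hΛ hf _ (by omega)]
  | succ g ih =>
    rw [G_succ, Lo_succ, show i + (g + 1) = i + 1 + g by omega,
      np hΛ (T_G b hf (by omega)) (by omega), show i + 1 + g = i + g + 1 by omega,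
      ih (by omega)]

theorem G_Ng_right (a : Bool) {s k e : ℕ} (h : e ≤ s) (hm : s + k + 1 ≤ n) :
    Ng (s + 2) k (G 0 e a f) = G 0 e a (Ng s k f) := by
  induction k with
  | zero => rfl
  | succ k ih =>
    have e1 := G_cr_right hΛ (T_Ng (s := s) (k := k) hf (by omega)) false a (e := e) (i := s + k)
      (by omega) (by omega)
    rw [cr_false, cr_false] at e1
    rw [Ng_succ, Ng_succ, ih (by omega), ← e1]
    congr 2
    omega

end TT

/-! ### relations which depend on the directions -/

variable {n : ℕ} {d : ℕ → Bool} {f : OWord → M} (hf : f ∈ S R Λ n d)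
include hf

theorem skein_par {i : ℕ} (h : i + 2 ≤ n) (hd : d i = d (i + 1)) :
    l' • st f (pos i) - l • st f (neg i) = m • f := by
  have key := eqOn (R := R) Λ n d (l' • stL R (pos i) - l • stL R (neg i)) (m • LinearMap.id)
    ?_ f hf
  · exact key
  intro u hu
  funext y
  show l' • extd Λ (u ++ (pos i :: y)) - l • extd Λ (u ++ (neg i :: y)) = m • extd Λ (u ++ y)
  have h1 : OClosed (u ++ (pos i :: y)) ↔ (below y n (swpD i d)).map Prod.fst = some 0 := by
    rw [OClosed, below_append, hu]; simp [below, OPiece.below, h]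
  have h2 : OClosed (u ++ (neg i :: y)) ↔ (below y n (swpD i d)).map Prod.fst = some 0 := by
    rw [OClosed, below_append, hu]; simp [below, OPiece.below, h]
  have h3 : OClosed (u ++ y) ↔ (below y n d).map Prod.fst = some 0 := by
    rw [OClosed, below_append, hu]; simp
  have e : swpD i d = d := by
    funext q
    simp only [swpD]
    split_ifs with c1 c2
    · rw [c1]; exact hd.symm
    · rw [c2]; exact hd
    · rfl
  rw [e] at h1 h2
  by_cases hy : (below y n d).map Prod.fst = some 0
  · rw [extd, extd, extd, if_pos (h1.2 hy), if_pos (h2.2 hy), if_pos (h3.2 hy)]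
    have hdir : dirs u = d := by rw [dirs, hu]; rfl
    have := hΛ.parallel u i y (by simpa using h1.2 hy) (by rw [hdir]; exact hd)
    simpa using this
  · rw [extd, extd, extd, if_neg (fun c => hy (h1.1 c)), if_neg (fun c => hy (h2.1 c)),
      if_neg (fun c => hy (h3.1 c))]
    simp

theorem skein_anti {i : ℕ} (h : i + 2 ≤ n) (hd : d (i + 1) = !d i) :
    l' • st f (neg i) - l • st f (pos i) = m • st (st f (death i)) (birth i (d (i + 1))) := by
  have key := eqOn (R := R) Λ n d (l' • stL R (neg i) - l • stL R (pos i))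
    (m • (stL R (birth i (d (i + 1)))).comp (stL R (death i))) ?_ f hf
  · exact key
  intro u hu
  funext y
  show l' • extd Λ (u ++ (neg i :: y)) - l • extd Λ (u ++ (pos i :: y)) =
    m • extd Λ (u ++ (death i :: birth i (d (i + 1)) :: y))
  have h1 : OClosed (u ++ (pos i :: y)) ↔ (below y n (swpD i d)).map Prod.fst = some 0 := by
    rw [OClosed, below_append, hu]; simp [below, OPiece.below, h]
  have h2 : OClosed (u ++ (neg i :: y)) ↔ (below y n (swpD i d)).map Prod.fst = some 0 := by
    rw [OClosed, below_append, hu]; simp [below, OPiece.below, h]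
  have e : insD i (d (i + 1)) (delD i d) = swpD i d := by
    funext q
    simp only [swpD, insD, delD]
    split_ifs with c1 c2 c3 c4 c5 c6 <;> first
      | rfl
      | (exfalso; omega)
      | (rw [hd, Bool.not_not])
      | (congr 1; omega)
  have h3 : OClosed (u ++ (death i :: birth i (d (i + 1)) :: y)) ↔
      (below y n (swpD i d)).map Prod.fst = some 0 := by
    have e1 : i ≤ n - 2 := by omega
    have e2 : n - 2 + 2 = n := by omega
    rw [OClosed, below_append, hu, ← e]; simp [below, OPiece.below, h, e1, e2, hd]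
  by_cases hy : (below y n (swpD i d)).map Prod.fst = some 0
  · rw [extd, extd, extd, if_pos (h1.2 hy), if_pos (h2.2 hy), if_pos (h3.2 hy)]
    have hdir : dirs u = d := by rw [dirs, hu]; rfl
    have := hΛ.antiparallel u i y (by simpa using h2.2 hy)
      (by rw [hdir, hd]; cases d i <;> simp)
    rw [hdir] at this
    simpa using this
  · rw [extd, extd, extd, if_neg (fun c => hy (h1.1 c)), if_neg (fun c => hy (h2.1 c)),
      if_neg (fun c => hy (h3.1 c))]
    simp

variable (hl : l * l' = 1)
include hl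

theorem pos_par {i : ℕ} (h : i + 2 ≤ n) (hd : d i = d (i + 1)) :
    st f (pos i) = (l * l) • st f (neg i) + (l * m) • f := by
  have e := congrArg (fun g => l • g) (skein_par hΛ hf h hd)
  simp only [smul_sub, smul_smul, hl, one_smul] at e
  rw [← e]
  abel

theorem neg_par {i : ℕ} (h : i + 2 ≤ n) (hd : d i = d (i + 1)) :
    st f (neg i) = (l' * l') • st f (pos i) - (l' * m) • f := by
  have e := congrArg (fun g => l' • g) (skein_par hΛ hf h hd)
  simp only [smul_sub, smul_smul, mul_comm l' l, hl, one_smul] at e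
  rw [← e]
  abel

theorem neg_anti {i : ℕ} (h : i + 2 ≤ n) (hd : d (i + 1) = !d i) :
    st f (neg i) = (l * l) • st f (pos i) +
      (l * m) • st (st f (death i)) (birth i (d (i + 1))) := by
  have e := congrArg (fun g => l • g) (skein_anti hΛ hf h hd)
  simp only [smul_sub, smul_smul, hl, one_smul] at e
  rw [← e]
  abel

theorem pos_anti {i : ℕ} (h : i + 2 ≤ n) (hd : d (i + 1) = !d i) :
    st f (pos i) = (l' * l') • st f (neg i) -
      (l' * m) • st (st f (death i)) (birth i (d (i + 1))) := by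
  have e := congrArg (fun g => l' • g) (skein_anti hΛ hf h hd)
  simp only [smul_sub, smul_smul, mul_comm l' l, hl, one_smul] at e
  rw [← e]
  abel

omit hl in
theorem bigon {i : ℕ} (b : Bool) (h : i < n) :
    m • st (st f (birth i b)) (death i) = (l' - l) • f := by
  have hT := T_of_mem hf
  have main : m • st (st f (birth i (!d i))) (death i) = (l' - l) • f := by
    have m1 := birth_mem (i := i) hf (!d i) h.le
    have e := skein_anti hΛ m1 (i := i) (by omega) (by rw [insD_right, insD_left])
    rw [curlBP hΛ hT _ h.le, curlBN hΛ hT _ h.le, insD_right] at e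
    have e2 := congrArg (fun g => st g (death (i + 1))) e
    simp only [st_smul, st_sub] at e2
    rw [zig1 hΛ hf h (b := !!d i) (by simp)] at e2
    have hd2 : insD i (!d i) d (i + 1) = !insD i (!d i) d i := by rw [insD_right, insD_left]
    have m2 := death_mem m1 (i := i) h.le hd2
    have hdd : delD i (insD i (!d i) d) = d := by
      funext q
      simp only [insD, delD]
      split_ifs <;> first | rfl | (exfalso; omega) | (congr 1; omega)
    rw [hdd] at m2
    rw [zig1 hΛ m2 h (b := !!d i) (by simp)] at e2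
    rw [← e2, sub_smul]
  by_cases hb : b = !d i
  · rw [hb]; exact main
  · have hb' : b = !(!d i) := by
      cases b <;> cases h2 : d i <;> simp_all
    have e1 : st f (birth i b) = st (st f (birth i (!d i))) (pos i) := by
      rw [curlBP hΛ hT _ h.le, hb']
    rw [e1, curlDP hΛ (T_birth hT _ h.le) (by omega)]
    exact main

omit hl in
theorem G_death_next (a : Bool) {e : ℕ} (he : e + 1 ≤ n) (ha : a = d e) :
    st (G 0 e a f) (death (e + 1)) = Lo e f := by
  induction e generalizing f d with
  | zero => exact zig1 hΛ hf (by omega) ha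
  | succ e ih =>
    have hT := T_of_mem hf
    rw [G_succ, show 0 + 1 + e = e + 1 by omega]
    rw [← sd1 hΛ (T_G a hT (by omega)) (by omega)]
    rw [← cr_true, show e + 1 + 1 = e + 2 by omega,
      G_cr_right hΛ hT true a (le_refl e) (by omega),
      cr_true, ih (pos_mem hf (by omega)) (by omega) (by rw [swpD_left]; exact ha), Lo_succ]

omit hl in
theorem G_death_end (a : Bool) {e : ℕ} (he : e + 1 ≤ n) (ha : a = d e) :
    st (G 0 (e + 1) a f) (death (e + 1)) = Lo e f := by
  rw [G_succ, show 0 + 1 + e = e + 1 by omega]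
  rw [curlDN hΛ (T_G a (T_of_mem hf) (by omega)) (by omega), G_death_next hΛ hf a he ha]

omit hl in
theorem G_death_first (a : Bool) {e : ℕ} (he : e + 1 ≤ n) (ha : a = !d 0) :
    st (G 0 (e + 1) a f) (death 0) = Ng 0 e f := by
  have hT := T_of_mem hf
  unfold G
  rw [Ng_head, Ng_death_left hΛ (T_neg (T_birth hT a (by omega)) (by omega)) (by omega)
    (by omega), sd2 hΛ (T_birth hT a (by omega)) (by omega), curlBP hΛ hT a (by omega),
    zig1 hΛ hf (by omega) (by rw [ha, Bool.not_not])]

theorem G_cross_par (b : Bool) {i c k : ℕ} (h : i + c + k ≤ n) :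
    G (i + 1) (c + 1 + k) b (G 0 (i + c) b f) =
      (l' * l') • G 0 (i + c + 1) b (G i (c + k) b f) -
        (l' * m) • G 0 (i + c + k + 2) b (G i c b f) := by
  have hT := T_of_mem hf
  have hf' : G i c b f ∈ S R Λ (n + 2) (gD i c b d) := G_mem b hf (by omega)
  have hH : G 0 (i + c + 1 + 1) b (G i c b f) ∈ S R Λ (n + 2 + 2)
      (gD 0 (i + c + 1 + 1) b (gD i c b d)) := G_mem b hf' (by omega)
  have d1 : gD 0 (i + c + 1 + 1) b (gD i c b d) (i + c + 1 + 1) = !b := by
    rw [gD_mid _ _ (by omega) (by omega), gD_right]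
  have d2 : gD 0 (i + c + 1 + 1) b (gD i c b d) (i + c + 1 + 1 + 1) = !b := by
    have := gD_right 0 (i + c + 1 + 1) b (gD i c b d)
    rwa [Nat.zero_add] at this
  rw [Nat.add_assoc c 1 k, G_add, G_nested hΛ hT b b (le_refl (i + c)) (by omega),
    Nat.add_comm 1 k, Ng_head, show i + 1 + 1 + c = i + c + 1 + 1 by omega,
    show i + c + 2 = i + c + 1 + 1 by omega,
    neg_par hΛ hH hl (by omega) (by rw [d1, d2]), G_pos_end hΛ (T_of_mem hf') b (by omega),
    Ng_sub, Ng_smul, Ng_smul]
  have t1 : Ng (i + c + 1 + 1 + 1) k (G 0 (i + c + 1) b (G i c b f)) =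
      G 0 (i + c + 1) b (G i (c + k) b f) := by
    rw [show i + c + 1 + 1 + 1 = (i + c + 1) + 2 by omega,
      G_Ng_right hΛ (T_of_mem hf') b (le_refl _) (by omega), G_add i c k,
      show i + 1 + c = i + c + 1 by omega]
  have t2 : Ng (i + c + 1 + 1 + 1) k (G 0 (i + c + 1 + 1) b (G i c b f)) =
      G 0 (i + c + k + 2) b (G i c b f) := by
    rw [show i + c + k + 2 = i + c + 1 + 1 + k by omega, G_add 0 (i + c + 1 + 1) k,
      show 0 + 1 + (i + c + 1 + 1) = i + c + 1 + 1 + 1 by omega]
  rw [t1, t2]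

theorem G_cross_anti (b : Bool) {i c k : ℕ} (h : i + c + k ≤ n) :
    G (i + 1) (c + 1 + k) b (G 0 (i + c) (!b) f) =
      (l * l) • G 0 (i + c + 1) (!b) (G i (c + k) b f) +
        (l * m) • G 0 i (!b) (G (i + c) k b f) := by
  have hT := T_of_mem hf
  have hf' : G i c b f ∈ S R Λ (n + 2) (gD i c b d) := G_mem b hf (by omega)
  have hH : G 0 (i + c + 1 + 1) (!b) (G i c b f) ∈ S R Λ (n + 2 + 2)
      (gD 0 (i + c + 1 + 1) (!b) (gD i c b d)) := G_mem (!b) hf' (by omega)
  have d1 : gD 0 (i + c + 1 + 1) (!b) (gD i c b d) (i + c + 1 + 1) = !b := by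
    rw [gD_mid _ _ (by omega) (by omega), gD_right]
  have d2 : gD 0 (i + c + 1 + 1) (!b) (gD i c b d) (i + c + 1 + 1 + 1) = b := by
    have := gD_right 0 (i + c + 1 + 1) (!b) (gD i c b d)
    rwa [Nat.zero_add, Bool.not_not] at this
  rw [Nat.add_assoc c 1 k, G_add, G_nested hΛ hT (!b) b (le_refl (i + c)) (by omega),
    Nat.add_comm 1 k, Ng_head, show i + 1 + 1 + c = i + c + 1 + 1 by omega,
    show i + c + 2 = i + c + 1 + 1 by omega,
    neg_anti hΛ hH hl (by omega) (by rw [d1, d2, Bool.not_not]),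
    G_pos_end hΛ (T_of_mem hf') (!b) (by omega),
    G_death_end hΛ hf' (!b) (by omega) (gD_right i c b d).symm,
    Lo_G hΛ hT b (by omega), d2, Ng_lin, Ng_smul, Ng_smul]
  have t1 : Ng (i + c + 1 + 1 + 1) k (G 0 (i + c + 1) (!b) (G i c b f)) =
      G 0 (i + c + 1) (!b) (G i (c + k) b f) := by
    rw [show i + c + 1 + 1 + 1 = (i + c + 1) + 2 by omega,
      G_Ng_right hΛ (T_of_mem hf') (!b) (le_refl _) (by omega), G_add i c k,
      show i + 1 + c = i + c + 1 by omega]
  have t3 : Ng (i + c + 1 + 1 + 1) k (st (G 0 i (!b) f) (birth (i + c + 1 + 1) b)) =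
      G 0 i (!b) (G (i + c) k b f) := by
    rw [← G_far hΛ hT (!b) b (by omega) h]
    rfl
  rw [t1, t3]

theorem G_pos_next_par (a : Bool) {e : ℕ} (he : e + 1 ≤ n) (ha : d e = !a) :
    st (G 0 e a f) (pos (e + 1)) = (l * l) • G 0 (e + 1) a f + (l * m) • G 0 e a f := by
  have d1 : gD 0 e a d (e + 1) = !a := by
    have := gD_right 0 e a d
    rwa [Nat.zero_add] at this
  have d2 : gD 0 e a d (e + 1 + 1) = d e := gD_gt _ _ (by omega)
  rw [pos_par hΛ (G_mem (l := 0) (g := e) a hf (by omega)) hl (by omega) (by rw [d1, d2, ha]),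
    G_neg_next hΛ (T_of_mem hf)]

theorem G_pos_next_anti (a : Bool) {e : ℕ} (he : e + 1 ≤ n) (ha : d e = a) :
    st (G 0 e a f) (pos (e + 1)) =
      (l' * l') • G 0 (e + 1) a f - (l' * m) • G (e + 1) 0 a (Lo e f) := by
  have d1 : gD 0 e a d (e + 1) = !a := by
    have := gD_right 0 e a d
    rwa [Nat.zero_add] at this
  have d2 : gD 0 e a d (e + 1 + 1) = d e := gD_gt _ _ (by omega)
  rw [pos_anti hΛ (G_mem (l := 0) (g := e) a hf (by omega)) hl (by omega)
    (by rw [d1, d2, ha, Bool.not_not]), G_neg_next hΛ (T_of_mem hf),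
    G_death_next hΛ hf a he ha.symm, d2, ha]
  rfl

theorem G_neg_end_par (a : Bool) {e : ℕ} (he : e + 1 ≤ n) (ha : d e = !a) :
    st (G 0 (e + 1) a f) (neg (e + 1)) =
      (l' * l') • G 0 e a f - (l' * m) • G 0 (e + 1) a f := by
  have d1 : gD 0 (e + 1) a d (e + 1) = d e := gD_mid _ _ (by omega) (by omega)
  have d2 : gD 0 (e + 1) a d (e + 1 + 1) = !a := by
    have := gD_right 0 (e + 1) a d
    rwa [Nat.zero_add] at this
  rw [neg_par hΛ (G_mem (l := 0) (g := e + 1) a hf (by omega)) hl (by omega)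
    (by rw [d1, d2, ha]), G_pos_end hΛ (T_of_mem hf) a he]

theorem G_neg_end_anti (a : Bool) {e : ℕ} (he : e + 1 ≤ n) (ha : d e = a) :
    st (G 0 (e + 1) a f) (neg (e + 1)) =
      (l * l) • G 0 e a f + (l * m) • G (e + 1) 0 (!a) (Lo e f) := by
  have d1 : gD 0 (e + 1) a d (e + 1) = d e := gD_mid _ _ (by omega) (by omega)
  have d2 : gD 0 (e + 1) a d (e + 1 + 1) = !a := by
    have := gD_right 0 (e + 1) a d
    rwa [Nat.zero_add] at this
  rw [neg_anti hΛ (G_mem (l := 0) (g := e + 1) a hf (by omega)) hl (by omega)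
    (by rw [d1, d2, ha]), G_pos_end hΛ (T_of_mem hf) a he, G_death_end hΛ hf a he ha.symm, d2]
  rfl

theorem G_pos_first_par (a : Bool) {e : ℕ} (he : e + 1 ≤ n) (ha : d 0 = a) :
    st (G 0 (e + 1) a f) (pos 0) = (l * l) • G 1 e a f + (l * m) • G 0 (e + 1) a f := by
  have d1 : gD 0 (e + 1) a d 0 = a := gD_left _ _ _ _
  have d2 : gD 0 (e + 1) a d (0 + 1) = d 0 := gD_mid _ _ (by omega) (by omega)
  rw [pos_par hΛ (G_mem (l := 0) (g := e + 1) a hf (by omega)) hl (by omega)
    (by rw [d1, d2, ha]), G_neg_first hΛ (T_of_mem hf) a he]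

theorem G_pos_first_anti (a : Bool) {e : ℕ} (he : e + 1 ≤ n) (ha : d 0 = !a) :
    st (G 0 (e + 1) a f) (pos 0) =
      (l' * l') • G 1 e a f - (l' * m) • G 0 0 (!a) (Ng 0 e f) := by
  have d1 : gD 0 (e + 1) a d 0 = a := gD_left _ _ _ _
  have d2 : gD 0 (e + 1) a d (0 + 1) = d 0 := gD_mid _ _ (by omega) (by omega)
  rw [pos_anti hΛ (G_mem (l := 0) (g := e + 1) a hf (by omega)) hl (by omega)
    (by rw [d1, d2, ha]), G_neg_first hΛ (T_of_mem hf) a he,
    G_death_first hΛ hf a he (by rw [ha, Bool.not_not]), d2, ha]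
  rfl

end

end

end Pool.Agent.Helper454.Wh
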