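import Pool.Agent.Helper454.Wh.Ops
import Pool.Agent.Helper454.Wh.Engine

set_option autoImplicit false

namespace Pool.Agent.Helper454.Wh

open OPiece

noncomputable section

set_option linter.unusedSectionVars false
set_option linter.unreachableTactic false
set_option linter.unusedTactic false
set_option linter.unnecessarySeqFocus false

/-! ### bits -/

theorem eqB_iff (x y : Bool) : eqB x y = true ↔ x = y := by
  cases x <;> cases y <;> simp [eqB]

theorem tb_eq (d e : ℕ) : tb d e = d.testBit e := by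
  have h : ∀ x : ℕ, (Nat.beq (1 &&& x) 1) = (1 &&& x != 0) := by
    intro x
    have hx : 1 &&& x = 0 ∨ 1 &&& x = 1 := by
      rw [Nat.and_comm, Nat.and_one_is_mod]; omega
    rcases hx with hx | hx <;> rw [hx] <;> rfl
  exact h _

theorem tb_rem (e d : ℕ) (q : ℕ) : tb (rem e d) q = if q < e then tb d (q + 1) else tb d (q + 2) := by
  rw [tb_eq, tb_eq, tb_eq]
  show Nat.testBit (((d >>> 1) % 2 ^ e) ||| ((d >>> (e + 2)) <<< e)) q = _
  rw [Nat.testBit_or, Nat.testBit_mod_two_pow, Nat.testBit_shiftLeft, Nat.testBit_shiftRight,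
    Nat.testBit_shiftRight]
  split_ifs with h
  · have h2 : ¬ e ≤ q := by omega
    simp [h, h2, Nat.add_comm]
  · have h2 : e ≤ q := by omega
    have h3 : e + 2 + (q - e) = q + 2 := by omega
    simp [h, h2, h3]

/-- the directions under the arc from `0` to `e + 1` -/
def remD (e : ℕ) (d : ℕ → Bool) : ℕ → Bool := fun q => if q < e then d (q + 1) else d (q + 2)

theorem tb_rem' (e d : ℕ) : tb (rem e d) = remD e (tb d) := by
  funext q
  exact tb_rem e d q

theorem tb_xor_three (j d q : ℕ) : tb (Nat.xor d (Nat.shiftLeft 3 j)) q =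
    if q = j ∨ q = j + 1 then !tb d q else tb d q := by
  rw [tb_eq, tb_eq]
  show Nat.testBit (d ^^^ (3 <<< j)) q = _
  rw [Nat.testBit_xor, Nat.testBit_shiftLeft]
  split_ifs with h
  · rcases h with rfl | rfl
    · simp
    · have e1 : j + 1 - j = 1 := by omega
      have e2 : j ≤ j + 1 := by omega
      rw [e1]
      simp [e2]
      cases d.testBit (j + 1) <;> decide
  · by_cases h2 : j ≤ q
    · obtain ⟨r, rfl⟩ : ∃ r, q = j + 2 + r := ⟨q - (j + 2), by omega⟩
      have e1 : j + 2 + r - j = r + 2 := by omega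
      have e2 : Nat.testBit 3 (r + 2) = false := by
        rw [Nat.testBit_succ, Nat.testBit_succ]
        simp
      simp [h2, e1, e2]
    · simp [h2]

theorem tb_swp (j d : ℕ) : tb (swp j d) = swpD j (tb d) := by
  funext q
  unfold swp
  rw [Bool.cond_eq_ite]
  simp only [eqB_iff, swpD]
  show tb (if tb d j = tb d (j + 1) then d else Nat.xor d (Nat.shiftLeft 3 j)) q = _
  split_ifs with h1 h2 h3 h4 h5
  · rw [h2, h1]
  · rw [h3, ← h1]
  · rfl
  · rw [tb_xor_three, if_pos (Or.inl h4), h4]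
    cases h6 : tb d j <;> cases h7 : tb d (j + 1) <;> simp_all
  · rw [tb_xor_three, if_pos (Or.inr h5), h5]
    cases h6 : tb d j <;> cases h7 : tb d (j + 1) <;> simp_all
  · rw [tb_xor_three, if_neg (by tauto)]

theorem mvL_succ (k d : ℕ) : mvL (k + 1) d = mvL k (swp k d) := rfl
theorem mvR_succ (k d : ℕ) : mvR (k + 1) d = swp k (mvR k d) := rfl

theorem tb_mvL (k d : ℕ) : tb (mvL k d) = movL k (tb d) := by
  induction k generalizing d with
  | zero => rw [movL_zero]; rfl
  | succ k ih => rw [mvL_succ, ih, tb_swp, movL_succ]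

theorem tb_mvR (k d : ℕ) : tb (mvR k d) = movR 0 k (tb d) := by
  induction k with
  | zero => rw [movR_zero]; rfl
  | succ k ih =>
    rw [mvR_succ, tb_swp, ih]
    have := movR_succ 0 k (tb d)
    rwa [Nat.zero_add] at this

theorem tb_insB (i : ℕ) (b : Bool) (d : ℕ) : tb (insB i b d) = insD i b (tb d) := by
  funext q
  rw [tb_eq]
  show Nat.testBit ((d % 2 ^ i) ||| (((cond b 1 2) <<< i) ||| ((d >>> i) <<< (i + 2)))) q = _
  rw [Nat.testBit_or, Nat.testBit_or, Nat.testBit_mod_two_pow, Nat.testBit_shiftLeft,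
    Nat.testBit_shiftLeft, Nat.testBit_shiftRight]
  simp only [insD]
  split_ifs with h1 h2 h3
  · have e1 : ¬ i ≤ q := by omega
    have e2 : ¬ i + 2 ≤ q := by omega
    simp [h1, e1, e2, tb_eq]
  · subst h2
    cases b <;> simp <;> decide
  · subst h3
    have e1 : i + 1 - i = 1 := by omega
    have e2 : i ≤ i + 1 := by omega
    rw [e1]
    cases b <;> simp <;> decide
  · obtain ⟨r, rfl⟩ : ∃ r, q = i + 2 + r := ⟨q - (i + 2), by omega⟩
    have e1 : i + 2 + r - i = r + 2 := by omega
    have e2 : Nat.testBit (cond b 1 2) (r + 2) = false := by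
      rw [Nat.testBit_succ, Nat.testBit_succ]
      cases b <;> simp
    have e3 : i + 2 + r - 2 = i + r := by omega
    have e4 : i + 2 + r - (i + 2) = r := by omega
    have e5 : ¬ i + 2 + r < i := by omega
    rw [e1, e2, e3, e4, tb_eq]
    simp [e5]

theorem tb_delB (i d : ℕ) : tb (delB i d) = delD i (tb d) := by
  funext q
  rw [tb_eq]
  show Nat.testBit ((d % 2 ^ i) ||| ((d >>> (i + 2)) <<< i)) q = _
  rw [Nat.testBit_or, Nat.testBit_mod_two_pow, Nat.testBit_shiftLeft, Nat.testBit_shiftRight]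
  simp only [delD]
  split_ifs with h1
  · have e1 : ¬ i ≤ q := by omega
    simp [h1, e1, tb_eq]
  · have e1 : i ≤ q := by omega
    have e2 : i + 2 + (q - i) = q + 2 := by omega
    simp [h1, e1, e2, tb_eq]

/-! ### evaluation of polynomials -/

section
variable {R : Type} [CommRing R]

/-- the polynomial in `m` with coefficients `0`, `1` given by the binary digits -/
def ev2 (m : R) (x : ℕ) : R :=
  Nat.binaryRec (motive := fun _ => R) 0 (fun b _ ih => (if b then 1 else 0) + m * ih) x

theorem ev2_bit (m : R) (b : Bool) (x : ℕ) :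
    ev2 m (Nat.bit b x) = (if b then 1 else 0) + m * ev2 m x := by
  unfold ev2
  rw [Nat.binaryRec_eq]
  left
  simp

theorem ev2_zero (m : R) : ev2 m 0 = 0 := by
  simp [ev2]

theorem ev2_xor (m : R) (x y : ℕ) :
    ev2 m (Nat.xor x y) = ev2 m x + ev2 m y - 2 * ev2 m (Nat.land x y) := by
  show ev2 m (x ^^^ y) = ev2 m x + ev2 m y - 2 * ev2 m (x &&& y)
  induction x using Nat.binaryRec generalizing y with
  | zero => simp [ev2_zero]
  | bit b x ih =>
    rw [← Nat.bit_testBit_zero_shiftRight_one y]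
    generalize y.testBit 0 = c
    generalize y >>> 1 = z
    rw [Nat.xor_bit, Nat.land_bit, ev2_bit, ev2_bit, ev2_bit, ev2_bit, ih]
    cases b <;> cases c <;> simp <;> ring


/-- the ring contains an element `w` with `w² + w + 1 = 0` and has characteristic `4` -/
structure Good (w : R) : Prop where
  four : (4 : R) = 0
  quad : w * w + w + 1 = 0

def evP (w m : R) (p : PM) : R :=
  (ev2 m p.a + 2 * ev2 m p.b) + w * (ev2 m p.c + 2 * ev2 m p.d)

variable {w m : R}

theorem evP_zero : evP w m PM.zero = 0 := by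
  simp [evP, PM.zero, ev2_zero]

theorem two_xor (hg : Good w) (x y : ℕ) :
    2 * ev2 m (Nat.xor x y) = 2 * ev2 m x + 2 * ev2 m y := by
  rw [ev2_xor]
  linear_combination (-ev2 m (Nat.land x y)) * hg.four

theorem evP_add (hg : Good w) (p q : PM) : evP w m (PM.add p q) = evP w m p + evP w m q := by
  obtain ⟨a, b, c, d⟩ := p
  obtain ⟨a', b', c', d'⟩ := q
  show (ev2 m (Nat.xor a a') + 2 * ev2 m (Nat.xor (Nat.xor b b') (Nat.land a a'))) +
    w * (ev2 m (Nat.xor c c') + 2 * ev2 m (Nat.xor (Nat.xor d d') (Nat.land c c'))) = _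
  rw [two_xor hg, two_xor hg, two_xor hg, two_xor hg, ev2_xor, ev2_xor]
  simp only [evP]
  ring

theorem evP_neg (hg : Good w) (p : PM) : evP w m (PM.neg p) = -evP w m p := by
  obtain ⟨a, b, c, d⟩ := p
  show (ev2 m a + 2 * ev2 m (Nat.xor a b)) + w * (ev2 m c + 2 * ev2 m (Nat.xor c d)) = _
  rw [two_xor hg, two_xor hg]
  simp only [evP]
  linear_combination (ev2 m a + ev2 m b + w * (ev2 m c + ev2 m d)) * hg.four

theorem ev2_two_mul (x : ℕ) : ev2 m (Nat.mul 2 x) = m * ev2 m x := by
  have := ev2_bit m false x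
  rw [Nat.bit_false] at this
  simpa using this

theorem evP_mulM (p : PM) : evP w m (PM.mulM p) = m * evP w m p := by
  obtain ⟨a, b, c, d⟩ := p
  show (ev2 m (Nat.mul 2 a) + 2 * ev2 m (Nat.mul 2 b)) +
    w * (ev2 m (Nat.mul 2 c) + 2 * ev2 m (Nat.mul 2 d)) = _
  simp only [ev2_two_mul, evP]
  ring

theorem evP_mulW (hg : Good w) (p : PM) : evP w m (PM.mulW p) = w * evP w m p := by
  obtain ⟨a, b, c, d⟩ := p
  show (ev2 m c + 2 * ev2 m (Nat.xor c d)) +
    w * (ev2 m (Nat.xor a c) + 2 * ev2 m (Nat.xor (Nat.xor b (Nat.xor c d)) (Nat.land a c))) = _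
  rw [two_xor hg, two_xor hg, two_xor hg, two_xor hg, ev2_xor]
  simp only [evP]
  linear_combination (ev2 m c + ev2 m d + w * (ev2 m c + ev2 m d)) * hg.four -
    (ev2 m c + 2 * ev2 m d) * hg.quad

theorem evP_mulW2 (hg : Good w) (p : PM) : evP w m (PM.mulW2 p) = w * w * evP w m p := by
  obtain ⟨a, b, c, d⟩ := p
  show (ev2 m (Nat.xor c a) + 2 * ev2 m (Nat.xor (Nat.xor d (Nat.xor a b)) (Nat.land c a))) +
    w * (ev2 m a + 2 * ev2 m (Nat.xor a b)) = _
  rw [two_xor hg, two_xor hg, two_xor hg, ev2_xor]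
  simp only [evP]
  linear_combination (ev2 m a + ev2 m b + w * (ev2 m a + ev2 m b)) * hg.four -
    ((ev2 m a + 2 * ev2 m b) + (w - 1) * (ev2 m c + 2 * ev2 m d)) * hg.quad

theorem evP_fC (hg : Good w) (p : PM) : evP w m (PM.fC p) = w * m * evP w m p := by
  rw [PM.fC, evP_mulM, evP_mulW hg]
  ring

theorem evP_fD (hg : Good w) (p : PM) : evP w m (PM.fD p) = -(w * w * m) * evP w m p := by
  rw [PM.fD, evP_mulM, evP_neg hg, evP_mulW2 hg]
  ring

theorem evP_fL (hg : Good w) (p : PM) : evP w m (PM.fL p) = (w * w - w) * evP w m p := by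
  rw [PM.fL, evP_add hg, evP_neg hg, evP_mulW hg, evP_mulW2 hg]
  ring

theorem Good.unit (hg : Good w) : w * (w * w) = 1 := by
  linear_combination (w - 1) * hg.quad

end

/-! ### semantics of vectors -/

section
variable {R : Type} [CommRing R] {M : Type} [AddCommGroup M] [Module R M]
variable (w m : R) (Λ : OWord → M)

def foldS {k : ℕ} (D : ℕ → Bool) (t : ℕ → Vec k → (OWord → M)) :
    List (Vec k) → ℕ → (OWord → M)
  | [], _ => 0
  | v :: vs, e => (if e ≤ 2 * k ∧ D (e + 1) = !D 0 then t e v else 0) + foldS D t vs (e + 1)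

theorem foldS_cons {k : ℕ} (D : ℕ → Bool) (t : ℕ → Vec k → (OWord → M)) (v : Vec k)
    (vs : List (Vec k)) (e : ℕ) : foldS D t (v :: vs) e =
      (if e ≤ 2 * k ∧ D (e + 1) = !D 0 then t e v else 0) + foldS D t vs (e + 1) := rfl

def sem : (k : ℕ) → (ℕ → Bool) → Vec k → (OWord → M)
  | 0, _, p => evP w m p • extd Λ
  | k + 1, D, v => foldS D (fun e x => G 0 e (D 0) (sem k (remD e D) x)) v 0

theorem sem_zero (k : ℕ) (D : ℕ → Bool) : sem w m Λ k D (zero k) = 0 := by
  cases k with
  | zero =>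
    show evP w m PM.zero • extd Λ = 0
    rw [evP_zero, zero_smul]
  | succ k => rfl

theorem foldS_add {k : ℕ} (D : ℕ → Bool) (t : ℕ → Vec k → (OWord → M))
    (f : Vec k → Vec k → Vec k) (h : ∀ e v x, t e (f v x) = t e v + t e x) (v x : List (Vec k))
    (e : ℕ) : foldS D t (addL f v x) e = foldS D t v e + foldS D t x e := by
  induction v generalizing e x with
  | nil =>
    show foldS D t x e = _
    simp [foldS]
  | cons a v ih =>
    cases x with
    | nil =>
      show foldS D t (a :: v) e = _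
      simp [foldS]
    | cons b x =>
      show foldS D t (f a b :: addL f v x) e = _
      rw [foldS, ih, foldS, foldS]
      split
      · rw [h]; abel
      · abel

variable {w m} {Λ} (hg : Good w)
include hg

theorem sem_add (k : ℕ) (D : ℕ → Bool) (v x : Vec k) :
    sem w m Λ k D (add k v x) = sem w m Λ k D v + sem w m Λ k D x := by
  induction k generalizing D with
  | zero =>
    show evP w m (PM.add v x) • extd Λ = evP w m v • extd Λ + evP w m x • extd Λ
    exact (congrArg (· • extd Λ) (evP_add hg v x)).trans (add_smul _ _ _)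
  | succ k ih =>
    refine foldS_add D (fun e x => G 0 e (D 0) (sem w m Λ k (remD e D) x)) (add k) ?_ v x 0
    intro e v x
    show G 0 e (D 0) (sem w m Λ k (remD e D) (add k v x)) = _
    rw [ih, G_lin]

omit hg in
theorem foldS_map {k : ℕ} (D : ℕ → Bool) (t : ℕ → Vec k → (OWord → M)) (f : Vec k → Vec k) (c : R)
    (h : ∀ e v, t e (f v) = c • t e v) (v : List (Vec k)) (e : ℕ) :
    foldS D t (mapL f v) e = c • foldS D t v e := by
  induction v generalizing e with
  | nil =>
    show foldS D t [] e = _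
    simp [foldS]
  | cons a v ih =>
    show foldS D t (f a :: mapL f v) e = _
    rw [foldS, ih, foldS, smul_add]
    split
    · rw [h]
    · rw [smul_zero]

omit hg in
theorem sem_map (f : PM → PM) (c : R) (h : ∀ p, evP w m (f p) = c * evP w m p) (k : ℕ)
    (D : ℕ → Bool) (v : Vec k) : sem w m Λ k D (mapV f k v) = c • sem w m Λ k D v := by
  induction k generalizing D with
  | zero =>
    show evP w m (f v) • extd Λ = c • evP w m v • extd Λ
    exact (congrArg (· • extd Λ) (h v)).trans (mul_smul _ _ _)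
  | succ k ih =>
    refine foldS_map D (fun e x => G 0 e (D 0) (sem w m Λ k (remD e D) x)) (mapV f k) c ?_ v 0
    intro e v
    show G 0 e (D 0) (sem w m Λ k (remD e D) (mapV f k v)) = _
    rw [ih, G_smul]

theorem sem_mulW (k : ℕ) (D : ℕ → Bool) (v : Vec k) :
    sem w m Λ k D (mapV PM.mulW k v) = w • sem w m Λ k D v :=
  sem_map _ _ (evP_mulW hg) k D v

theorem sem_mulW2 (k : ℕ) (D : ℕ → Bool) (v : Vec k) :
    sem w m Λ k D (mapV PM.mulW2 k v) = (w * w) • sem w m Λ k D v :=
  sem_map _ _ (evP_mulW2 hg) k D v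

theorem sem_fC (k : ℕ) (D : ℕ → Bool) (v : Vec k) :
    sem w m Λ k D (mapV PM.fC k v) = (w * m) • sem w m Λ k D v :=
  sem_map _ _ (evP_fC hg) k D v

theorem sem_fD (k : ℕ) (D : ℕ → Bool) (v : Vec k) :
    sem w m Λ k D (mapV PM.fD k v) = -((w * w * m) • sem w m Λ k D v) := by
  rw [sem_map _ _ (evP_fD hg) k D v, neg_smul]

theorem sem_fL (k : ℕ) (D : ℕ → Bool) (v : Vec k) :
    sem w m Λ k D (mapV PM.fL k v) = (w * w - w) • sem w m Λ k D v :=
  sem_map _ _ (evP_fL hg) k D v

omit hg in
theorem sem_mulM (k : ℕ) (D : ℕ → Bool) (v : Vec k) :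
    sem w m Λ k D (mapV PM.mulM k v) = m • sem w m Λ k D v :=
  sem_map _ _ evP_mulM k D v

omit hg in
theorem foldS_push {k : ℕ} (D : ℕ → Bool) (e s : ℕ) (v : Vec k) (h : s + e ≤ 2 * k)
    (hD : D (s + e + 1) = !D 0) :
    foldS D (fun e x => G 0 e (D 0) (sem w m Λ k (remD e D) x)) (push k e v) s =
      G 0 (s + e) (D 0) (sem w m Λ k (remD (s + e) D) v) := by
  induction e generalizing s with
  | zero =>
    show (if s ≤ 2 * k ∧ D (s + 1) = !D 0 then G 0 s (D 0) (sem w m Λ k (remD s D) v) else 0) +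
      0 = _
    rw [if_pos ⟨by omega, hD⟩, add_zero]
    rfl
  | succ e ih =>
    refine (foldS_cons D _ (zero k) (push k e v) s).trans ?_
    rw [ih (s + 1) (by omega) (by rw [← hD]; congr 1; omega), sem_zero, G_zero']
    rw [show s + (e + 1) = s + 1 + e by omega]
    simp

omit hg in
theorem sem_push (k e : ℕ) (D : ℕ → Bool) (v : Vec k) (h : e ≤ 2 * k) (hD : D (e + 1) = !D 0) :
    sem w m Λ (k + 1) D (push k e v) = G 0 e (D 0) (sem w m Λ k (remD e D) v) := by
  show foldS D _ (push k e v) 0 = _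
  rw [foldS_push D e 0 v (by omega) (by rw [Nat.zero_add]; exact hD), Nat.zero_add]

theorem fold_sound {k j : ℕ} (d : ℕ) (D' : ℕ → Bool) (term : ℕ → Vec k → Vec j)
    (φ : (OWord → M) →ₗ[R] (OWord → M))
    (h : ∀ e x, e ≤ 2 * k → tb d (e + 1) = !tb d 0 →
      sem w m Λ j D' (term e x) = φ (G 0 e (tb d 0) (sem w m Λ k (remD e (tb d)) x)))
    (v : List (Vec k)) (e : ℕ) :
    sem w m Λ j D' (foldV d term v e) =
      φ (foldS (tb d) (fun e x => G 0 e (tb d 0) (sem w m Λ k (remD e (tb d)) x)) v e) := by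
  induction v generalizing e with
  | nil =>
    show sem w m Λ j D' (zero j) = φ 0
    rw [sem_zero, map_zero]
  | cons a v ih =>
    show sem w m Λ j D' (add j (cond (Nat.ble e (Nat.mul 2 k))
        (cond (eqB (tb d (Nat.add e 1)) (tb d 0)) (zero j) (term e a)) (zero j))
      (foldV d term v (e + 1))) = _
    rw [sem_add hg, ih, foldS, map_add]
    congr 1
    simp only [Bool.cond_eq_ite, Nat.ble_eq, eqB_iff]
    show sem w m Λ j D' (if e ≤ 2 * k then
      (if tb d (e + 1) = tb d 0 then zero j else term e a) else zero j) = _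
    by_cases h1 : e ≤ 2 * k
    · by_cases h2 : tb d (e + 1) = tb d 0
      · have h3 : ¬ (e ≤ 2 * k ∧ tb d (e + 1) = !tb d 0) := by
          rintro ⟨_, h3⟩
          rw [h2] at h3
          cases h4 : tb d 0 <;> simp [h4] at h3
        rw [if_pos h1, if_pos h2, if_neg h3, sem_zero, map_zero]
      · have h3 : tb d (e + 1) = !tb d 0 := by
          cases h4 : tb d 0 <;> cases h5 : tb d (e + 1) <;> simp_all
        rw [if_pos h1, if_neg h2, if_pos ⟨h1, h3⟩, h e a h1 h3]
    · rw [if_neg h1, if_neg (fun hh => h1 hh.1), sem_zero, map_zero]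

omit hg in
theorem foldS_mem {k n : ℕ} (D D' : ℕ → Bool) (t : ℕ → Vec k → (OWord → M))
    (h : ∀ e x, e ≤ 2 * k → D (e + 1) = !D 0 → t e x ∈ S R Λ n D') (v : List (Vec k)) (e : ℕ) :
    foldS D t v e ∈ S R Λ n D' := by
  induction v generalizing e with
  | nil => exact Submodule.zero_mem _
  | cons a v ih =>
    rw [foldS]
    refine Submodule.add_mem _ ?_ (ih _)
    split
    · rename_i h1
      exact h e a h1.1 h1.2
    · exact Submodule.zero_mem _

omit hg in
theorem gD_remD (e : ℕ) (D : ℕ → Bool) (h : D (e + 1) = !D 0) : gD 0 e (D 0) (remD e D) = D := by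
  funext q
  simp only [gD, remD]
  split_ifs with h1 h2 h3 h4 h5 h6 h7 h8 <;> first
    | rfl
    | (exfalso; omega)
    | (congr 1; omega)
    | (rw [← h]; congr 1; omega)

omit hg in
theorem sem_mem (k : ℕ) (D : ℕ → Bool) (hD : ∀ q, 2 * k ≤ q → D q = false) (v : Vec k) :
    sem w m Λ k D v ∈ S R Λ (2 * k) D := by
  induction k generalizing D with
  | zero =>
    have : D = noD := by
      funext q
      exact hD q (by omega)
    subst this
    exact Submodule.smul_mem _ _ (Submodule.subset_span ⟨[], rfl, rfl⟩)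
  | succ k ih =>
    refine foldS_mem D D _ ?_ v 0
    intro e x he hDe
    have h1 : ∀ q, 2 * k ≤ q → remD e D q = false := by
      intro q hq
      simp only [remD]
      split_ifs <;> first | (exfalso; omega) | exact hD _ (by omega)
    have := G_mem (l := 0) (D 0) (ih (remD e D) h1 x) (show 0 + e ≤ 2 * k by omega)
    rw [gD_remD e D hDe] at this
    rwa [show 2 * (k + 1) = 2 * k + 2 by omega]

end

end

end Pool.Agent.Helper454.Wh
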