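import Pool.Agent.Helper454.Wh.Sound2

set_option autoImplicit false

namespace Pool.Agent.Helper454.Wh

open OPiece

noncomputable section

set_option linter.unusedSectionVars false

section
variable {R : Type} [CommRing R] {M : Type} [AddCommGroup M] [Module R M]
variable {w m : R} {Λ : OWord → M}
variable (hΛ : HomflyRules w (w * w) m Λ) (hg : Good w)
include hΛ hg

omit hΛ hg in
theorem sem_one (D : ℕ → Bool) (h : D 1 = !D 0) (p : PM) (ps : List PM) :
    sem w m Λ 1 D (p :: ps : List PM) = evP w m p • st (extd Λ) (birth 0 (D 0)) := by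
  have : ∀ (e : ℕ) (qs : List (Vec 0)), 1 ≤ e →
      foldS D (fun e x => G 0 e (D 0) (sem w m Λ 0 (remD e D) x)) qs e = 0 := by
    intro e qs he
    induction qs generalizing e with
    | nil => rfl
    | cons q qs ih =>
      refine (foldS_cons D _ q qs e).trans ?_
      rw [if_neg (by omega), ih _ (by omega), add_zero]
  show (if 0 ≤ 2 * 0 ∧ D (0 + 1) = !D 0 then
    G 0 0 (D 0) (evP w m p • extd Λ) else 0) + foldS (k := 0) D _ ps (0 + 1) = _
  rw [if_pos ⟨le_refl _, h⟩]
  refine (congrArg (G 0 0 (D 0) (evP w m p • extd Λ) + ·) (this (0 + 1) ps (by omega))).trans ?_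
  rw [add_zero, G_zero, st_smul]

omit hg in
/-- the circle next to the first arc -/
theorem circle_first (a b : Bool) :
    m • G 0 0 a (st (st (extd Λ) (birth 0 b)) (death 0)) =
      (w * w - w) • G 0 0 a (extd Λ) := by
  have h0 : extd Λ ∈ S R Λ 0 noD := Submodule.subset_span ⟨[], rfl, rfl⟩
  have hT := T_of_mem h0
  have h2 := birth_mem (i := 0) h0 b (le_refl 0)
  have h3 := birth_mem (i := 0) h0 a (le_refl 0)
  rw [G_zero, G_zero, db hΛ (T_of_mem h2) a (le_refl 0) (by omega),
    bb hΛ hT b a (le_refl 0) (le_refl 0), bigon hΛ h3 b (by omega)]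

theorem sem_opD_zero (a : Bool) (D E : ℕ → Bool) (h : D 1 = !D 0) (d j : ℕ) (x : Vec 1) :
    G 0 0 a (sem w m Λ 0 E (opD 0 d j x)) = m • G 0 0 a (st (sem w m Λ 1 D x) (death 0)) := by
  cases (show List PM from x) with
  | nil =>
    show G 0 0 a (evP w m PM.zero • extd Λ) = m • G 0 0 a (st (0 : OWord → M) (death 0))
    rw [evP_zero, zero_smul, st_zero, G_zero', smul_zero]
  | cons p ps =>
    refine Eq.trans ?_ (congrArg (fun f => m • G 0 0 a (st f (death 0))) (sem_one D h p ps)).symm
    show G 0 0 a (evP w m (PM.fL p) • extd Λ) = _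
    beta_reduce
    rw [evP_fL hg, st_smul, G_smul, G_smul, smul_comm m, circle_first hΛ, smul_smul, mul_comm]

theorem sem_opD (k : ℕ) (d j : ℕ) (v : Vec (k + 2)) (h : j + 2 ≤ 2 * (k + 2))
    (hd : Sup (2 * (k + 2)) (tb d)) (hj : tb d (j + 1) = !tb d j) :
    sem w m Λ (k + 1) (delD j (tb d)) (opD (k + 1) d j v) =
      m • st (sem w m Λ (k + 2) (tb d) v) (death j) := by
  induction k generalizing d j with
  | zero =>
    show sem w m Λ 1 (delD j (tb d)) (foldV (m := 1) (k := 1) d _ v 0) = _
    show _ = (m • stL R (death j)) (sem w m Λ 2 (tb d) v)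
    refine fold_sound (k := 1) (j := 1) (w := w) (m := m) (Λ := Λ) hg d (delD j (tb d)) _
      (m • stL R (death j)) ?_ v 0
    intro e x he hD
    show _ = m • st (G 0 e (tb d 0) (sem w m Λ 1 (remD e (tb d)) x)) (death j)
    have hs := Sup.rem (k := 1) hd he
    have hf := T_of_mem (sem_mem (R := R) (w := w) (m := m) (Λ := Λ) 1 (remD e (tb d)) hs x)
    have hf' := sem_mem (R := R) (w := w) (m := m) (Λ := Λ) 1 (remD e (tb d)) hs x
    have hs2 : Sup (2 * 1) (tb (rem e d)) := by rw [tb_rem']; exact hs
    have he2 : e ≤ 2 := he
    by_cases hj0 : j = 0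
    · rw [cond_t (beq_t hj0)]
      subst hj0
      by_cases he0 : e = 0
      · rw [cond_t (beq_t he0)]
        subst he0
        rw [sem_fL hg, G_zero, bigon hΛ hf' _ (by omega), del_zero_rem]
      · rw [cond_f (beq_f he0)]
        obtain ⟨e', rfl⟩ : ∃ e', e = e' + 1 := ⟨e - 1, by omega⟩
        rw [show Nat.sub (e' + 1) 1 = e' from rfl, sem_mulM]
        congr 1
        rw [G_death_first hΛ hf' _ (by omega) (by
            simp only [remD]
            have : tb d 1 = !tb d 0 := hj
            simp [this]), ← tb_rem',
          ← sem_seqR (opZ 1 false) (fun d j v hj hd => sem_opZ hΛ hg 1 false d j v hj hd)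
            e' _ x (by omega) hs2, tb_rem', movR_rem' _ (hD.trans hj.symm)]
    · rw [cond_f (beq_f hj0)]
      by_cases h1 : j + 1 ≤ e
      · rw [cond_t (ble_t h1 : Nat.ble (Nat.add j 1) e = true)]
        obtain ⟨i, rfl⟩ : ∃ i, j = i + 1 := ⟨j - 1, by omega⟩
        obtain ⟨e', rfl⟩ : ∃ e', e = e' + 2 := ⟨e - 2, by omega⟩
        obtain rfl : i = 0 := by omega
        obtain rfl : e' = 0 := by omega
        rw [G_death_slide hΛ hf _ (by omega) (by omega)]
        have hj2 : remD (0 + 2) (tb d) 1 = !remD (0 + 2) (tb d) 0 := by
          simp only [remD]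
          rw [if_pos (by omega), if_pos (by omega)]
          exact hj
        refine Eq.trans ?_ (sem_opD_zero hΛ hg (tb d 0) _ noD hj2 (rem (0 + 2) d) (0 + 1 - 1) x)
        refine sem_push' (e := 0) _ (by omega) (delD_lt _ (by omega))
          (by rw [delD_ge _ (by omega)]; exact hD) ?_
        funext q
        show remD 0 (delD 1 (tb d)) q = false
        simp only [remD, delD]
        rw [if_neg (by omega), if_neg (by omega)]
        exact hd _ (by omega)
      · rw [cond_f (ble_f h1 : Nat.ble (Nat.add j 1) e = false)]
        by_cases h2 : e + 2 ≤ j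
        · rw [cond_t (ble_t h2 : Nat.ble (Nat.add e 2) j = true)]
          obtain ⟨i, rfl⟩ : ∃ i, j = i + 2 := ⟨j - 2, by omega⟩
          obtain rfl : i = 0 := by omega
          obtain rfl : e = 0 := by omega
          rw [G_death_right hΛ hf _ (by omega) (by omega)]
          have hj2 : remD 0 (tb d) 1 = !remD 0 (tb d) 0 := by
            simp only [remD]
            rw [if_neg (by omega), if_neg (by omega)]
            exact hj
          refine Eq.trans ?_ (sem_opD_zero hΛ hg (tb d 0) _ noD hj2 (rem 0 d) (0 + 2 - 2) x)
          refine sem_push' _ (by omega) (delD_lt _ (by omega))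
            (by rw [delD_lt _ (by omega)]; exact hD) ?_
          funext q
          show remD 0 (delD 2 (tb d)) q = false
          simp only [remD, delD]
          rw [if_neg (by omega), if_neg (by omega)]
          exact hd _ (by omega)
        · rw [cond_f (ble_f h2 : Nat.ble (Nat.add e 2) j = false)]
          by_cases h3 : j = e + 1
          · rw [cond_t (beq_t h3 : Nat.beq j (Nat.add e 1) = true)]
            subst h3
            have h4 : tb d (e + 2) = tb d 0 := by
              have : tb d (e + 2) = !tb d (e + 1) := hj
              rw [this, hD, Bool.not_not]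
            rw [sem_mulM]
            congr 1
            rw [G_death_next hΛ hf' _ (by omega) (by
                simp only [remD]
                simpa using h4.symm), ← tb_rem',
              ← sem_seqL (opZ 1 true)
                (fun d j v hj hd => sem_opZ hΛ hg 1 true d j v hj hd)
                e _ x (by omega) hs2, tb_rem', movL_rem _ h4]
          · rw [cond_f (beq_f h3 : Nat.beq j (Nat.add e 1) = false)]
            obtain rfl : j = e := by omega
            obtain ⟨e', rfl⟩ : ∃ e', j = e' + 1 := ⟨j - 1, by omega⟩
            have h4 : tb d (e' + 1) = tb d 0 := by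
              have : tb d (e' + 1) = !tb d (e' + 1 + 1) := by rw [hj, Bool.not_not]
              rw [this, hD, Bool.not_not]
            rw [show Nat.sub (e' + 1) 1 = e' from rfl, sem_mulM]
            congr 1
            rw [G_death_end hΛ hf' _ (by omega) (by
                simp only [remD]
                simpa using h4.symm), ← tb_rem',
              ← sem_seqL (opZ 1 true)
                (fun d j v hj hd => sem_opZ hΛ hg 1 true d j v hj hd)
                e' _ x (by omega) hs2, tb_rem', movL_rem' _ h4]
  | succ k ih =>
    show sem w m Λ (k + 2) (delD j (tb d)) (foldV (m := k + 2) (k := k + 2) d _ v 0) = _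
    show _ = (m • stL R (death j)) (sem w m Λ (k + 3) (tb d) v)
    refine fold_sound (k := k + 2) (j := k + 2) (w := w) (m := m) (Λ := Λ) hg d (delD j (tb d)) _
      (m • stL R (death j)) ?_ v 0
    intro e x he hD
    show _ = m • st (G 0 e (tb d 0) (sem w m Λ (k + 2) (remD e (tb d)) x)) (death j)
    have hs := Sup.rem (k := k + 2) hd he
    have hf := T_of_mem (sem_mem (R := R) (w := w) (m := m) (Λ := Λ) (k + 2) (remD e (tb d)) hs x)
    have hf' := sem_mem (R := R) (w := w) (m := m) (Λ := Λ) (k + 2) (remD e (tb d)) hs x
    have hs2 : Sup (2 * (k + 2)) (tb (rem e d)) := by rw [tb_rem']; exact hs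
    by_cases hj0 : j = 0
    · rw [cond_t (beq_t hj0)]
      subst hj0
      by_cases he0 : e = 0
      · rw [cond_t (beq_t he0)]
        subst he0
        rw [sem_fL hg, G_zero, bigon hΛ hf' _ (by omega), del_zero_rem]
      · rw [cond_f (beq_f he0)]
        obtain ⟨e', rfl⟩ : ∃ e', e = e' + 1 := ⟨e - 1, by omega⟩
        rw [show Nat.sub (e' + 1) 1 = e' from rfl, sem_mulM]
        congr 1
        rw [G_death_first hΛ hf' _ (by omega) (by
            simp only [remD]
            have : tb d 1 = !tb d 0 := hj
            simp [this]), ← tb_rem',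
          ← sem_seqR (opZ (k + 2) false) (fun d j v hj hd => sem_opZ hΛ hg (k + 2) false d j v hj hd)
            e' _ x (by omega) hs2, tb_rem', movR_rem' _ (hD.trans hj.symm)]
    · rw [cond_f (beq_f hj0)]
      by_cases h1 : j + 1 ≤ e
      · rw [cond_t (ble_t h1 : Nat.ble (Nat.add j 1) e = true)]
        obtain ⟨i, rfl⟩ : ∃ i, j = i + 1 := ⟨j - 1, by omega⟩
        obtain ⟨e', rfl⟩ : ∃ e', e = e' + 2 := ⟨e - 2, by omega⟩
        rw [show Nat.sub (i + 1) 1 = i from rfl, show Nat.sub (e' + 2) 2 = e' from rfl,
          G_death_slide hΛ hf _ (by omega) (by omega), ← G_smul, ← tb_rem']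
        have hj2 : tb (rem (e' + 2) d) (i + 1) = !tb (rem (e' + 2) d) i := by
          rw [tb_rem']
          simp only [remD]
          rw [if_pos (by omega), if_pos (by omega)]
          exact hj
        refine Eq.trans ?_ (congrArg (G 0 e' (tb d 0))
          (ih (rem (e' + 2) d) i x (by omega) hs2 hj2))
        exact sem_push' _ (by omega) (delD_lt _ (by omega))
          (by rw [delD_ge _ (by omega)]; exact hD)
          (by rw [tb_rem']; exact rem_del_slide _ (by omega))
      · rw [cond_f (ble_f h1 : Nat.ble (Nat.add j 1) e = false)]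
        by_cases h2 : e + 2 ≤ j
        · rw [cond_t (ble_t h2 : Nat.ble (Nat.add e 2) j = true)]
          obtain ⟨i, rfl⟩ : ∃ i, j = i + 2 := ⟨j - 2, by omega⟩
          rw [show Nat.sub (i + 2) 2 = i from rfl, G_death_right hΛ hf _ (by omega) (by omega),
            ← G_smul, ← tb_rem']
          have hj2 : tb (rem e d) (i + 1) = !tb (rem e d) i := by
            rw [tb_rem']
            simp only [remD]
            rw [if_neg (by omega), if_neg (by omega)]
            exact hj
          refine Eq.trans ?_ (congrArg (G 0 e (tb d 0))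
            (ih (rem e d) i x (by omega) hs2 hj2))
          exact sem_push' _ (by omega) (delD_lt _ (by omega))
            (by rw [delD_lt _ (by omega)]; exact hD)
            (by rw [tb_rem']; exact rem_del_right _ (by omega))
        · rw [cond_f (ble_f h2 : Nat.ble (Nat.add e 2) j = false)]
          by_cases h3 : j = e + 1
          · rw [cond_t (beq_t h3 : Nat.beq j (Nat.add e 1) = true)]
            subst h3
            have h4 : tb d (e + 2) = tb d 0 := by
              have : tb d (e + 2) = !tb d (e + 1) := hj
              rw [this, hD, Bool.not_not]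
            rw [sem_mulM]
            congr 1
            rw [G_death_next hΛ hf' _ (by omega) (by
                simp only [remD]
                simpa using h4.symm), ← tb_rem',
              ← sem_seqL (opZ (k + 2) true)
                (fun d j v hj hd => sem_opZ hΛ hg (k + 2) true d j v hj hd)
                e _ x (by omega) hs2, tb_rem', movL_rem _ h4]
          · rw [cond_f (beq_f h3 : Nat.beq j (Nat.add e 1) = false)]
            obtain rfl : j = e := by omega
            obtain ⟨e', rfl⟩ : ∃ e', j = e' + 1 := ⟨j - 1, by omega⟩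
            have h4 : tb d (e' + 1) = tb d 0 := by
              have : tb d (e' + 1) = !tb d (e' + 1 + 1) := by rw [hj, Bool.not_not]
              rw [this, hD, Bool.not_not]
            rw [show Nat.sub (e' + 1) 1 = e' from rfl, sem_mulM]
            congr 1
            rw [G_death_end hΛ hf' _ (by omega) (by
                simp only [remD]
                simpa using h4.symm), ← tb_rem',
              ← sem_seqL (opZ (k + 2) true)
                (fun d j v hj hd => sem_opZ hΛ hg (k + 2) true d j v hj hd)
                e' _ x (by omega) hs2, tb_rem', movL_rem' _ h4]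

end

end

end Pool.Agent.Helper454.Wh
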